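import Pool.Agent.H62.Cft4

/-!
# The two Artin maps, and characters with conductor
-/

set_option autoImplicit false
set_option linter.unusedSectionVars false
set_option linter.deprecated false

namespace Pool.Agent.H62.EX

open NumberField IsDedekindDomain Pool.Agent.Q92.AR Pool.Agent.Q20.EX Pool.Agent.Q125.AR Pool.Agent.H62.Cft
open Pool.Agent.Y696 (Art)

section
variable {F K : Type} [Field F] [NumberField F] [Field K] [NumberField K] [Algebra F K]

theorem comm_of_art {c : 𝓞 F} {A : (𝓞 F ⧸ Ideal.span {c})ˣ →* Gal(K/F)} (hA : Art c A)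
    (g h : K ≃ₐ[F] K) : g * h = h * g := by
  obtain ⟨x, rfl⟩ := hA.surj g
  obtain ⟨y, rfl⟩ := hA.surj h
  rw [← map_mul, ← map_mul, mul_comm]

theorem exists_above (v : HeightOneSpectrum (𝓞 F)) :
    ∃ w : HeightOneSpectrum (𝓞 K), w.under (𝓞 F) = v := by
  obtain ⟨Q, hQ, hQ2⟩ := Ideal.exists_maximal_ideal_liesOver_of_isIntegral (S := 𝓞 K) v.asIdeal
  have h0 : Q ≠ ⊥ := by
    rintro rfl
    have h1 := hQ2.over
    rw [Ideal.under_bot] at h1
    exact v.ne_bot h1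
  refine ⟨⟨Q, hQ.isPrime, h0⟩, ?_⟩
  apply HeightOneSpectrum.ext
  exact hQ2.over.symm

theorem eq_of_frob [IsGalois F K] {w : HeightOneSpectrum (𝓞 K)}
    (hunr : Algebra.IsUnramifiedAt (𝓞 F) w.asIdeal) {q : ℕ} {g h : K ≃ₐ[F] K}
    (hg : ∀ x : 𝓞 K, g • x - x ^ q ∈ w.asIdeal) (hh : ∀ x : 𝓞 K, h • x - x ^ q ∈ w.asIdeal) :
    g = h := by
  have h1 : g * h⁻¹ = 1 := by
    refine Pool.Agent.Y696.unr_g w hunr fun x => ?_
    have h2 := hg (h⁻¹ • x)
    have h3 := hh (h⁻¹ • x)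
    rw [smul_inv_smul] at h3
    rw [mul_smul]
    have h4 := w.asIdeal.sub_mem h2 h3
    rwa [sub_sub_sub_cancel_right] at h4
  exact mul_inv_eq_one.1 h1

theorem isUnit_of_prime {c p : 𝓞 F} {v : HeightOneSpectrum (𝓞 F)} (hp : v.asIdeal = Ideal.span {p})
    (hc : c ∉ v.asIdeal) : IsUnit (Ideal.Quotient.mk (Ideal.span {c}) p) := by
  obtain ⟨y, i, hi, h1⟩ := v.isMaximal.exists_inv hc
  rw [hp, Ideal.mem_span_singleton] at hi
  obtain ⟨k, rfl⟩ := hi
  refine IsUnit.of_mul_eq_one (Ideal.Quotient.mk _ k) ?_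
  rw [← map_mul, ← map_one (Ideal.Quotient.mk (Ideal.span {c})), Ideal.Quotient.eq,
    Ideal.mem_span_singleton, ← h1]
  exact ⟨-y, by ring⟩

theorem exists_gen [IsPrincipalIdealRing (𝓞 F)] (v : HeightOneSpectrum (𝓞 F)) :
    ∃ p : 𝓞 F, Prime p ∧ v.asIdeal = Ideal.span {p} := by
  obtain ⟨p, hp⟩ := (IsPrincipalIdealRing.principal v.asIdeal).principal
  have hp' : v.asIdeal = Ideal.span {p} := hp
  have hp0 : p ≠ 0 := by
    rintro rfl
    exact v.ne_bot (by rw [hp', Ideal.span_singleton_eq_bot])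
  exact ⟨p, (Ideal.span_singleton_prime hp0).1 (hp' ▸ v.isPrime), hp'⟩

theorem finite_c {c : 𝓞 F} (hc : c ≠ 0) : {v : HeightOneSpectrum (𝓞 F) | c ∈ v.asIdeal}.Finite := by
  have h0 : Ideal.span {c} ≠ 0 := fun h => hc (Ideal.span_singleton_eq_bot.1 h)
  exact (Ideal.finite_factors h0).subset fun v hv => Ideal.dvd_span_singleton.2 hv

/-- the Artin map kills the units -/
theorem art_unit [IsGalois F K] [IsPrincipalIdealRing (𝓞 F)] {c : 𝓞 F} (hc : c ≠ 0)
    {A : (𝓞 F ⧸ Ideal.span {c})ˣ →* Gal(K/F)} (hA : Art c A) (e : (𝓞 F)ˣ)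
    (u : (𝓞 F ⧸ Ideal.span {c})ˣ) (hu : (u : 𝓞 F ⧸ Ideal.span {c}) = Ideal.Quotient.mk _ (e : 𝓞 F)) :
    A u = 1 := by
  classical
  obtain ⟨v, hv, -, -⟩ := Pool.Agent.Q14.AR.cheb F K 1 _ (finite_c hc)
  obtain ⟨p, hp, hvp⟩ := exists_gen v
  obtain ⟨t, ht⟩ := isUnit_of_prime hvp hv
  obtain ⟨w, hw⟩ := exists_above (K := K) v
  have hpw : algebraMap (𝓞 F) (𝓞 K) p ∈ w.asIdeal := by
    have h1 : p ∈ v.asIdeal := by
      rw [hvp]
      exact Ideal.mem_span_singleton_self p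
    rw [← hw] at h1
    exact h1
  have hcw : algebraMap (𝓞 F) (𝓞 K) c ∉ w.asIdeal := by
    intro h
    apply hv
    rw [← hw]
    exact h
  have hpe : Prime ((e : 𝓞 F) * p) := (Associated.prime_iff ⟨e, by ring⟩).1 hp
  have h1 := hA.frob p hp t ht w hpw
  have h2 := hA.frob ((e : 𝓞 F) * p) hpe (u * t) (by rw [Units.val_mul, hu, ht, map_mul]) w (by
    rw [map_mul]
    exact w.asIdeal.mul_mem_left _ hpw)
  have h3 : Ideal.span {(e : 𝓞 F) * p} = Ideal.span {p} :=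
    Ideal.span_singleton_eq_span_singleton.2 (Associated.symm ⟨e, by ring⟩)
  rw [h3] at h2
  have h4 := eq_of_frob (hA.unr w hcw) h1 h2
  rw [map_mul] at h4
  exact (mul_eq_right.1 h4.symm)

theorem el_mul {a b : 𝓞 F} (ha : a ≠ 0) (hb : b ≠ 0) :
    prin (el (mul_ne_zero ha hb)) = prin (el ha) + prin (el hb) := by
  rw [← prin_mul]
  congr 1
  apply Units.ext
  rw [Units.val_mul, el_coe, el_coe, el_coe, map_mul]

theorem prin_unit (e : (𝓞 F)ˣ) {x : Fˣ} (hx : (x : F) = algebraMap (𝓞 F) F e) : prin x = 0 := by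
  ext w
  have h0 := valuation_eq_exp x w
  have h1 : (e : 𝓞 F) ∉ w.asIdeal := fun h => w.isPrime.ne_top (Ideal.eq_top_of_isUnit_mem _ h e.isUnit)
  rw [hx, (HeightOneSpectrum.valuation_eq_one_iff_notMem w).2 h1, ← WithZero.exp_zero] at h0
  have := WithZero.exp_injective h0
  rw [Finsupp.coe_zero, Pi.zero_apply]
  omega

/-- A character of the divisors that is given on the primes outside `c` by a character of the residues modulo `c`
which kills the units. -/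
theorem dv_el [IsPrincipalIdealRing (𝓞 F)] {c : 𝓞 F} (X : Dv F →+ Additive ℂˣ)
    (χ : (𝓞 F ⧸ Ideal.span {c})ˣ →* ℂˣ)
    (hχ : ∀ (e : (𝓞 F)ˣ) (u : (𝓞 F ⧸ Ideal.span {c})ˣ),
      (u : 𝓞 F ⧸ Ideal.span {c}) = Ideal.Quotient.mk _ (e : 𝓞 F) → χ u = 1)
    (hX : ∀ (v : HeightOneSpectrum (𝓞 F)) (p : 𝓞 F), Prime p → p ∈ v.asIdeal →
      ∀ u : (𝓞 F ⧸ Ideal.span {c})ˣ, (u : 𝓞 F ⧸ Ideal.span {c}) = Ideal.Quotient.mk _ p →
        X (Finsupp.single v 1) = Additive.ofMul (χ u))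
    (a : 𝓞 F) (ha : a ≠ 0) (u : (𝓞 F ⧸ Ideal.span {c})ˣ)
    (hu : (u : 𝓞 F ⧸ Ideal.span {c}) = Ideal.Quotient.mk _ a) :
    X (prin (el ha)) = Additive.ofMul (χ u) := by
  classical
  induction a using UniqueFactorizationMonoid.induction_on_prime generalizing u with
  | h₁ => exact absurd rfl ha
  | h₂ x hx =>
    obtain ⟨e, rfl⟩ := hx
    rw [prin_unit e (el_coe ha), map_zero, hχ e u hu, ofMul_one]
  | h₃ x p hx hp ih =>
    have hup : IsUnit (Ideal.Quotient.mk (Ideal.span {c}) p) := by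
      refine isUnit_of_mul_isUnit_left (y := Ideal.Quotient.mk (Ideal.span {c}) x) ?_
      rw [← map_mul, ← hu]
      exact u.isUnit
    have hux : IsUnit (Ideal.Quotient.mk (Ideal.span {c}) x) := by
      refine isUnit_of_mul_isUnit_right (x := Ideal.Quotient.mk (Ideal.span {c}) p) ?_
      rw [← map_mul, ← hu]
      exact u.isUnit
    obtain ⟨s, hs⟩ := hup
    obtain ⟨t, ht⟩ := hux
    have hst : u = s * t := by
      apply Units.ext
      rw [Units.val_mul, hs, ht, hu, map_mul]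
    have hmax : (Ideal.span {p}).IsPrime := (Ideal.span_singleton_prime hp.ne_zero).2 hp
    let v : HeightOneSpectrum (𝓞 F) := ⟨Ideal.span {p}, hmax, by
      rw [Ne, Ideal.span_singleton_eq_bot]
      exact hp.ne_zero⟩
    have hpv : p ∈ v.asIdeal := Ideal.mem_span_singleton_self p
    rw [el_mul hp.ne_zero hx, map_add, ih hx t ht, prin_prime hp hpv (el_coe hp.ne_zero),
      hX v p hp hpv s hs, hst, map_mul, ofMul_mul]

/-- **Comparison of the Artin maps.** -/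
theorem art_el [IsGalois F K] [IsPrincipalIdealRing (𝓞 F)] {c : 𝓞 F} (hc : c ≠ 0)
    {A : (𝓞 F ⧸ Ideal.span {c})ˣ →* Gal(K/F)} (hA : Art c A) (φ : (K ≃ₐ[F] K) →* ℂˣ)
    (a : 𝓞 F) (ha : a ≠ 0) (u : (𝓞 F ⧸ Ideal.span {c})ˣ)
    (hu : (u : 𝓞 F ⧸ Ideal.span {c}) = Ideal.Quotient.mk _ a) :
    art φ (prin (el ha)) = Additive.ofMul (φ (A u)) := by
  have hcomm := comm_of_art hA
  refine dv_el (art φ) (φ.comp A) (fun e u hu => ?_) (fun v p hp hpv u hu => ?_) a ha u hu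
  · rw [MonoidHom.comp_apply, art_unit hc hA e u hu, map_one]
  · rw [art_single, one_smul, MonoidHom.comp_apply]
    congr 2
    obtain ⟨w, hw⟩ := exists_above (K := K) v
    have hpw : algebraMap (𝓞 F) (𝓞 K) p ∈ w.asIdeal := by
      rw [← hw] at hpv
      exact hpv
    have hcv : c ∉ v.asIdeal := by
      intro h
      exact not_mem_of_unit (a := p) (hu ▸ u.isUnit) h hpv
    have hcw : algebraMap (𝓞 F) (𝓞 K) c ∉ w.asIdeal := by
      intro h
      apply hcv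
      rw [← hw]
      exact h
    have h2 := frob_all hcomm (frob_spec (M := K) v) w hw
    have h3 : Nat.card (𝓞 F ⧸ Ideal.span {p}) = Ideal.absNorm v.asIdeal := by
      rw [span_of_prime hp hpv, Ideal.absNorm_apply]
      rfl
    have h1 := hA.frob p hp u hu w hpw
    rw [h3] at h1
    exact eq_of_frob (hA.unr w hcw) h2 h1

end

end Pool.Agent.H62.EX
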