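import Pool.Agent.H62.Rec4
import Pool.Agent.H62.Fin5

/-!
# Units of the ring of integers of `ℚ(√-3)`
-/

set_option autoImplicit false

namespace Pool.Agent.H62.EX

open NumberField IsDedekindDomain

section
variable {F : Type} [Field F] [NumberField F] [IsCyclotomicExtension {3} ℚ F]

theorem unit_six {w : 𝓞 F} (hw : IsUnit w) : w ^ 6 = 1 := by
  obtain ⟨ζ, hζ⟩ := IsCyclotomicExtension.exists_isPrimitiveRoot ℚ F
    (Set.mem_singleton 3) (by norm_num)
  obtain ⟨u, rfl⟩ := hw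
  have h6 := IsCyclotomicExtension.Rat.Three.Units.mem hζ u
  have h3 := Pool.Agent.H62.z_cube hζ
  have hη : (((IsPrimitiveRoot.isUnit (hζ.toInteger_isPrimitiveRoot) (by decide)).unit :
    (𝓞 F)ˣ) : 𝓞 F) = hζ.toInteger := rfl
  simp only [List.mem_cons, List.not_mem_nil, or_false] at h6
  rcases h6 with rfl | rfl | rfl | rfl | rfl | rfl
  · simp
  · rw [Units.val_neg, Units.val_one]
    norm_num
  · rw [hη]
    calc hζ.toInteger ^ 6 = (hζ.toInteger ^ 3) ^ 2 := by ring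
      _ = 1 := by rw [h3, one_pow]
  · rw [Units.val_neg, hη]
    calc (-hζ.toInteger) ^ 6 = (hζ.toInteger ^ 3) ^ 2 := by ring
      _ = 1 := by rw [h3, one_pow]
  · rw [Units.val_pow_eq_pow_val, hη]
    calc (hζ.toInteger ^ 2) ^ 6 = (hζ.toInteger ^ 3) ^ 4 := by ring
      _ = 1 := by rw [h3, one_pow]
  · rw [Units.val_neg, Units.val_pow_eq_pow_val, hη]
    calc (-hζ.toInteger ^ 2) ^ 6 = (hζ.toInteger ^ 3) ^ 4 := by ring
      _ = 1 := by rw [h3, one_pow]

theorem eq_of_assoc {p q : 𝓞 F} (hp : Prime p) (hq : Prime q) (h3 : (3 : 𝓞 F) ∣ p - 1)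
    (h3' : (3 : 𝓞 F) ∣ q - 1) (h : Associated p q) : p = q := by
  obtain ⟨ζ, hζ⟩ := IsCyclotomicExtension.exists_isPrimitiveRoot ℚ F
    (Set.mem_singleton 3) (by norm_num)
  obtain ⟨σ, hσ⟩ := Pool.Agent.Y696.exists_emb hζ
  let e := Pool.Agent.Y696.isoE hζ σ hσ
  by_contra hne
  have h1 := Pool.Agent.H62.cop_three
    ((MulEquiv.prime_iff (e : 𝓞 F ≃* Pool.Agent.Y696.eis)).2 hp)
    ((MulEquiv.prime_iff (e : 𝓞 F ≃* Pool.Agent.Y696.eis)).2 hq) (by
      have := map_dvd e h3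
      rwa [map_sub, map_one, map_ofNat] at this) (by
      have := map_dvd e h3'
      rwa [map_sub, map_one, map_ofNat] at this) (fun h => hne (e.injective h))
  have h2 : e p ∣ e q := map_dvd e h.dvd
  have h4 : IsUnit (e p) := h1.isUnit_of_dvd' dvd_rfl h2
  exact hp.not_unit ((MulEquiv.isUnit_map (e : 𝓞 F ≃* Pool.Agent.Y696.eis)).1 h4)

end

end Pool.Agent.H62.EX
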