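import Pool.Agent.H62.EX.Prd
import Pool.Agent.H62.EX.Uni

/-!
# Lemmas for the existence of the fields
-/

set_option autoImplicit false
set_option linter.unusedSectionVars false

namespace Pool.Agent.H62.EX

open NumberField IsDedekindDomain

section
variable {F : Type} [Field F] [NumberField F] [IsCyclotomicExtension {3} ℚ F]

theorem theta_prime {θ : 𝓞 F} (hθ : θ ^ 2 = -3) : Prime θ := by
  obtain ⟨ζ, hζ⟩ := IsCyclotomicExtension.exists_isPrimitiveRoot ℚ F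
    (Set.mem_singleton 3) (by norm_num)
  have hI' : hζ.toInteger ^ 2 + hζ.toInteger + 1 = 0 := by
    apply FaithfulSMul.algebraMap_injective (𝓞 F) F
    rw [map_add, map_add, map_pow, map_one, map_zero]
    exact Pool.Agent.H62.quad_of hζ
  have hsq : (hζ.toInteger - 1) ^ 2 = θ ^ 2 * hζ.toInteger := by
    rw [hθ]
    linear_combination hI'
  have hcu : hζ.toInteger ^ 3 = 1 := by linear_combination (hζ.toInteger - 1) * hI'
  have hpr : Prime (hζ.toInteger - 1) := hζ.zeta_sub_one_prime'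
  have h1 : hζ.toInteger - 1 ∣ θ ^ 2 := by
    refine ⟨(hζ.toInteger - 1) * hζ.toInteger ^ 2, ?_⟩
    linear_combination (-hζ.toInteger ^ 2) * hsq - θ ^ 2 * hcu
  obtain ⟨m, hm⟩ := hpr.dvd_of_dvd_pow h1
  have h2 : (hζ.toInteger - 1) ^ 2 * (m ^ 2 * hζ.toInteger) = (hζ.toInteger - 1) ^ 2 * 1 := by
    have h3 : (hζ.toInteger - 1) ^ 2 = ((hζ.toInteger - 1) * m) ^ 2 * hζ.toInteger := by
      rw [← hm]
      exact hsq
    linear_combination -h3
  have h3 := mul_left_cancel₀ (pow_ne_zero 2 hpr.ne_zero) h2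
  have h4 : IsUnit m := by
    refine IsUnit.of_mul_eq_one (m * hζ.toInteger) ?_
    linear_combination h3
  obtain ⟨u, rfl⟩ := h4
  exact (Associated.prime_iff ⟨u, hm.symm⟩).1 hpr

theorem span_natCast_norm (q : ℕ) : Ideal.absNorm (Ideal.span {((q : ℕ) : 𝓞 F)}) = q ^ 2 := by
  rw [Ideal.absNorm_span_natCast, RingOfIntegers.rank, IsCyclotomicExtension.finrank (n := 3) F
    (Polynomial.cyclotomic.irreducible_rat (by norm_num))]
  rfl

/-- there is a noncube modulo `p` -/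
theorem exists_noncube {p : 𝓞 F} (hp : Prime p) (h3 : 3 ∣ Ideal.absNorm (Ideal.span {p}) - 1) :
    ∃ g : 𝓞 F, ¬ ∃ z : 𝓞 F, p ∣ z ^ 3 - g := by
  obtain ⟨hfin, hcyc, hcard⟩ := card_unit_quot hp
  by_contra hcon
  push Not at hcon
  have hP : (Ideal.span {p}).IsPrime := (Ideal.span_singleton_prime hp.ne_zero).2 hp
  have hsurj : Function.Surjective (fun x : (𝓞 F ⧸ Ideal.span {p})ˣ => x ^ 3) := by
    intro u
    obtain ⟨g, hg⟩ := Ideal.Quotient.mk_surjective (u : 𝓞 F ⧸ Ideal.span {p})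
    obtain ⟨z, hz⟩ := hcon g
    have h1 : Ideal.Quotient.mk (Ideal.span {p}) z ^ 3 = (u : 𝓞 F ⧸ Ideal.span {p}) := by
      rw [← hg, ← map_pow, Ideal.Quotient.eq, Ideal.mem_span_singleton]
      exact hz
    have h2 : IsUnit (Ideal.Quotient.mk (Ideal.span {p}) z) := by
      rw [← isUnit_pow_iff (three_ne_zero), h1]
      exact u.isUnit
    obtain ⟨t, ht⟩ := h2
    refine ⟨t, ?_⟩
    apply Units.ext
    simp only [Units.val_pow_eq_pow_val]
    rw [ht, h1]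
  have hinj := Finite.injective_iff_surjective.2 hsurj
  rw [← hcard] at h3
  have hp3 : Fact (Nat.Prime 3) := ⟨Nat.prime_three⟩
  obtain ⟨x, hx⟩ := exists_prime_orderOf_dvd_card' 3 h3
  have h1 : x ^ 3 = 1 := by rw [← hx, pow_orderOf_eq_one]
  have h2 : x = 1 := hinj (by
    simp only
    rw [h1, one_pow])
  rw [h2, orderOf_one] at hx
  norm_num at hx

/-- rational integers are cubes modulo the inert primes -/
theorem cube_inert {q : ℕ} (hq : q.Prime) (h3 : 3 ∣ q + 1) (a : ℤ) :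
    ∃ y : 𝓞 F, ((q : ℕ) : 𝓞 F) ∣ y ^ 3 - (a : 𝓞 F) := by
  have hf : Fact q.Prime := ⟨hq⟩
  have hcop : (Nat.card (ZMod q)ˣ).Coprime 3 := by
    rw [Nat.card_eq_fintype_card, ZMod.card_units_eq_totient, Nat.totient_prime hq, Nat.coprime_comm,
      Nat.Prime.coprime_iff_not_dvd Nat.prime_three]
    have := hq.one_lt
    omega
  obtain ⟨b, hb⟩ : ∃ b : ZMod q, b ^ 3 = (a : ZMod q) := by
    by_cases h0 : (a : ZMod q) = 0
    · exact ⟨0, by rw [h0]; norm_num⟩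
    · obtain ⟨t, ht⟩ := (powCoprime hcop).surjective (Units.mk0 _ h0)
      refine ⟨(t : ZMod q), ?_⟩
      have := congrArg (Units.val) ht
      rw [powCoprime_apply, Units.val_pow_eq_pow_val, Units.val_mk0] at this
      exact this
  have h1 : ((b.val : ℤ) ^ 3 - a : ℤ) ≡ 0 [ZMOD q] := by
    rw [← ZMod.intCast_eq_intCast_iff]
    push_cast
    rw [ZMod.natCast_zmod_val, hb, sub_self]
  obtain ⟨c, hc⟩ := (Int.modEq_zero_iff_dvd).1 h1
  refine ⟨((b.val : ℤ) : 𝓞 F), (c : 𝓞 F), ?_⟩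
  have := congrArg (Int.cast : ℤ → 𝓞 F) hc
  push_cast at this ⊢
  exact this

/-- `θ` modulo a rational prime -/
theorem theta_pow {q : ℕ} (hq : q.Prime) (h3 : 3 ∣ q + 1) {θ : 𝓞 F} (hθ : θ ^ 2 = -3) :
    ((q : ℕ) : 𝓞 F) ∣ θ ^ (2 * (q - 1)) - 1 := by
  have hf : Fact q.Prime := ⟨hq⟩
  have h0 : ((-3 : ℤ) : ZMod q) ≠ 0 := by
    rw [Ne, ZMod.intCast_zmod_eq_zero_iff_dvd]
    intro h
    have h1 : (q : ℤ) ∣ 3 := by rwa [Int.dvd_neg] at h
    have h2 : q ∣ 3 := by exact_mod_cast h1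
    rcases (Nat.dvd_prime Nat.prime_three).1 h2 with h4 | h4
    · exact hq.one_lt.ne' h4
    · rw [h4] at h3
      norm_num at h3
  have h1 : ((-3 : ℤ) : ZMod q) ^ (q - 1) = 1 := ZMod.pow_card_sub_one_eq_one h0
  have h2 : (((-3) ^ (q - 1) - 1 : ℤ)) ≡ 0 [ZMOD q] := by
    rw [← ZMod.intCast_eq_intCast_iff]
    push_cast at h1 ⊢
    rw [h1, sub_self]
  obtain ⟨c, hc⟩ := (Int.modEq_zero_iff_dvd).1 h2
  refine ⟨(c : 𝓞 F), ?_⟩
  rw [pow_mul, hθ]
  have := congrArg (Int.cast : ℤ → 𝓞 F) hc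
  push_cast at this ⊢
  exact this

end

end Pool.Agent.H62.EX
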