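import Pool.Agent.H62.EX.Stm
import Pool.Agent.H62.EX.Lms
import Pool.Agent.H62.EX.Lem
import Pool.Agent.H62.Rec3

/-!
# The rational primes
-/

set_option autoImplicit false
set_option linter.unusedSectionVars false

namespace Pool.Agent.H62.EX

open NumberField IsDedekindDomain
open Pool.Agent.H62 (Nm)

section
variable {F : Type} [Field F] [NumberField F] [IsCyclotomicExtension {3} ℚ F]

theorem Nm_eq (p : 𝓞 F) : Nm p = Ideal.absNorm (Ideal.span {p}) := by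
  unfold Nm
  rw [Ideal.absNorm_apply]
  rfl

/-- the primes `q ≡ 2 mod 3` are inert -/
theorem prime_inert {q : ℕ} (hq : q.Prime) (h3 : 3 ∣ q + 1) : Prime ((q : ℕ) : 𝓞 F) := by
  have hpid := IsCyclotomicExtension.Rat.three_pid F
  obtain ⟨ζ, hζ⟩ := IsCyclotomicExtension.exists_isPrimitiveRoot ℚ F
    (Set.mem_singleton 3) (by norm_num)
  have hq0 : ((q : ℕ) : 𝓞 F) ≠ 0 := by exact_mod_cast hq.ne_zero
  have hnu : Ideal.span {((q : ℕ) : 𝓞 F)} ≠ ⊤ := by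
    intro h
    have h1 := span_natCast_norm (F := F) q
    rw [h, Ideal.absNorm_top] at h1
    have := hq.one_lt
    nlinarith
  obtain ⟨m, hm, hle⟩ := Ideal.exists_le_maximal _ hnu
  have hqm : ((q : ℕ) : 𝓞 F) ∈ m := hle (Ideal.mem_span_singleton_self _)
  have hm0 : m ≠ ⊥ := by
    rintro rfl
    exact hq0 hqm
  obtain ⟨ϖ, hϖ, hmϖ⟩ := exists_gen (⟨m, hm.isPrime, hm0⟩ : HeightOneSpectrum (𝓞 F))
  change m = Ideal.span {ϖ} at hmϖ
  have hd : ϖ ∣ ((q : ℕ) : 𝓞 F) := by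
    rw [hmϖ] at hqm
    exact Ideal.mem_span_singleton.1 hqm
  have h3ϖ : ¬ ϖ ∣ 3 := by
    intro h
    have hcop : IsCoprime ((q : ℕ) : 𝓞 F) 3 := by
      have : Nat.Coprime q 3 := by
        rw [Nat.coprime_comm, Nat.Prime.coprime_iff_not_dvd Nat.prime_three]
        omega
      have h1 := (Nat.isCoprime_iff_coprime.2 this).map (Int.castRingHom (𝓞 F))
      simpa using h1
    exact hϖ.not_isUnit (hcop.isUnit_of_dvd' hd h)
  have hN := Pool.Agent.H62.three_dvd_Nm hζ hϖ h3ϖ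
  rw [Nm_eq] at hN
  have hdvd : Ideal.absNorm (Ideal.span {ϖ}) ∣ q ^ 2 := by
    rw [← span_natCast_norm (F := F) q]
    exact Ideal.absNorm_dvd_absNorm_of_le (Ideal.span_singleton_le_span_singleton.2 hd)
  obtain ⟨i, hi, hi2⟩ := (Nat.dvd_prime_pow hq).1 hdvd
  have h1 : i ≠ 0 := by
    rintro rfl
    rw [pow_zero, Ideal.absNorm_eq_one_iff] at hi2
    exact hϖ.not_isUnit (Ideal.span_singleton_eq_top.1 hi2)
  have h2 : i ≠ 1 := by
    rintro rfl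
    rw [hi2, pow_one] at hN
    have := hq.one_lt
    omega
  have hi' : i = 2 := by omega
  subst hi'
  obtain ⟨u, hu⟩ := hd
  have h4 : Ideal.absNorm (Ideal.span {ϖ}) * Ideal.absNorm (Ideal.span {u}) = q ^ 2 := by
    rw [← map_mul, Ideal.span_singleton_mul_span_singleton, ← hu, span_natCast_norm]
  rw [hi2] at h4
  have h5 : Ideal.absNorm (Ideal.span {u}) = 1 :=
    mul_left_cancel₀ (pow_ne_zero 2 hq.ne_zero) (h4.trans (mul_one _).symm)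
  have h6 : IsUnit u := by
    rw [Ideal.absNorm_eq_one_iff] at h5
    exact Ideal.span_singleton_eq_top.1 h5
  obtain ⟨e, rfl⟩ := h6
  exact (Associated.prime_iff ⟨e, hu.symm⟩).1 hϖ

/-- the cubes modulo a prime -/
theorem cube_of_pow {p x : 𝓞 F} (hp : Prime p) (hpx : ¬ p ∣ x)
    (h3 : 3 ∣ Nm p - 1) (h : p ∣ x ^ ((Nm p - 1) / 3) - 1) : ∃ z : 𝓞 F, p ∣ z ^ 3 - x := by
  obtain ⟨hfin, hcyc, hcard⟩ := card_unit_quot hp
  rw [← Nm_eq] at hcard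
  have hP : (Ideal.span {p}).IsPrime := (Ideal.span_singleton_prime hp.ne_zero).2 hp
  have hmax : (Ideal.span {p}).IsMaximal := hP.isMaximal (by
    rw [Ne, Ideal.span_singleton_eq_bot]
    exact hp.ne_zero)
  let _ : Field (𝓞 F ⧸ Ideal.span {p}) := Ideal.Quotient.field _
  have h1 : (Ideal.Quotient.mk (Ideal.span {p})) x ≠ 0 := by
    rw [Ne, Ideal.Quotient.eq_zero_iff_mem, Ideal.mem_span_singleton]
    exact hpx
  obtain ⟨g, hg⟩ := IsCyclic.exists_generator (α := (𝓞 F ⧸ Ideal.span {p})ˣ)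
  have hog : orderOf g = Nm p - 1 := by
    rw [orderOf_eq_card_of_forall_mem_zpowers hg, hcard]
  obtain ⟨k, hk⟩ := Subgroup.mem_zpowers_iff.1 (hg (Units.mk0 _ h1))
  obtain ⟨m, hm⟩ := h3
  have hm' : (Nm p - 1) / 3 = m := by omega
  have hm0 : m ≠ 0 := by
    rintro rfl
    rw [mul_zero] at hm
    rw [hm] at hog
    exact (isOfFinOrder_of_finite g).orderOf_pos.ne' hog
  have h2 : (Units.mk0 _ h1 : (𝓞 F ⧸ Ideal.span {p})ˣ) ^ m = 1 := by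
    apply Units.ext
    rw [Units.val_pow_eq_pow_val, Units.val_mk0, ← map_pow, Units.val_one, ← map_one (Ideal.Quotient.mk _),
      Ideal.Quotient.eq, Ideal.mem_span_singleton, ← hm']
    exact h
  rw [← hk, ← zpow_natCast, ← zpow_mul] at h2
  have h4 : ((3 * m : ℕ) : ℤ) ∣ k * m := by
    rw [← hm, ← hog]
    exact orderOf_dvd_iff_zpow_eq_one.2 h2
  have h5 : (3 : ℤ) ∣ k := by
    have hm0' : (m : ℤ) ≠ 0 := by exact_mod_cast hm0
    push_cast at h4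
    exact Int.dvd_of_mul_dvd_mul_right hm0' h4
  obtain ⟨l, rfl⟩ := h5
  obtain ⟨z, hz⟩ := Ideal.Quotient.mk_surjective ((g ^ l : (𝓞 F ⧸ Ideal.span {p})ˣ) : 𝓞 F ⧸ Ideal.span {p})
  refine ⟨z, ?_⟩
  rw [← Ideal.mem_span_singleton, ← Ideal.Quotient.eq, map_pow, hz, ← Units.val_pow_eq_pow_val,
    ← zpow_natCast, ← zpow_mul, mul_comm l]
  have := congrArg Units.val hk
  rw [Units.val_mk0] at this
  exact this

/-- `π` is not a cube modulo `q` if `q ≡ 3` modulo `π` -/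
theorem not_cube_q {θ : 𝓞 F} (hθ : θ ^ 2 = -3) {π : 𝓞 F} (hπ : Prime π) (h3 : 3 * θ ∣ π - 1)
    (hn : ¬ ∃ y : 𝓞 F, π ∣ y ^ 3 - θ) {q : ℕ} (hq : q.Prime) (h9 : 9 ∣ q + 1)
    (hqπ : π ∣ ((q : ℕ) : 𝓞 F) - 3) : ¬ ∃ y : 𝓞 F, ((q : ℕ) : 𝓞 F) ∣ y ^ 3 - π := by
  obtain ⟨ζ, hζ⟩ := IsCyclotomicExtension.exists_isPrimitiveRoot ℚ F
    (Set.mem_singleton 3) (by norm_num)
  have hI' : hζ.toInteger ^ 2 + hζ.toInteger + 1 = 0 := Pool.Agent.H62.zI hζ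
  have hθ2 : θ = 2 * hζ.toInteger + 1 ∨ θ = -(2 * hζ.toInteger + 1) := by
    have h1 : (θ - (2 * hζ.toInteger + 1)) * (θ + (2 * hζ.toInteger + 1)) = 0 := by
      linear_combination hθ - 4 * hI'
    rcases mul_eq_zero.1 h1 with h2 | h2
    · exact Or.inl (sub_eq_zero.1 h2)
    · exact Or.inr (eq_neg_of_add_eq_zero_left h2)
  have hstar : ∀ x : 𝓞 F, 3 * θ ∣ x → 3 * (2 * hζ.toInteger + 1) ∣ x := by
    intro x hx
    rcases hθ2 with h | h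
    · rwa [h] at hx
    · rw [h, mul_neg, neg_dvd] at hx
      exact hx
  have h3q : 3 ∣ q + 1 := dvd_trans (by norm_num) h9
  have hQ : Prime (-((q : ℕ) : 𝓞 F)) := (prime_inert hq h3q).neg
  have hQ1 : 3 * θ ∣ -((q : ℕ) : 𝓞 F) - 1 := by
    obtain ⟨m, hm⟩ := h9
    refine ⟨θ * m, ?_⟩
    have := congrArg (Nat.cast : ℕ → 𝓞 F) hm
    push_cast at this
    linear_combination -this - 3 * m * hθ
  have hπ3 : ¬ π ∣ 3 := Pool.Agent.H62.not_dvd_three hπ h3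
  have hπq : ¬ π ∣ -((q : ℕ) : 𝓞 F) := by
    intro h
    apply hπ3
    have h1 := dvd_add (dvd_neg.1 h) (dvd_neg.2 hqπ)
    have e : ((q : ℕ) : 𝓞 F) + -(((q : ℕ) : 𝓞 F) - 3) = 3 := by ring
    rwa [e] at h1
  have hqπ' : ¬ -((q : ℕ) : 𝓞 F) ∣ π := fun h =>
    hπq ((hQ.irreducible.associated_of_dvd hπ.irreducible h).symm.dvd)
  rintro ⟨y, hy⟩
  obtain ⟨j, hj, hj2⟩ := Pool.Agent.H62.exists_idx hζ hπ hπ3 hπq
  have h5 := Pool.Agent.H62.idx_symm hζ hπ (hstar _ h3) hQ (hstar _ hQ1) hqπ' hj2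
  have hQ3 : ¬ -((q : ℕ) : 𝓞 F) ∣ 3 := Pool.Agent.H62.not_dvd_three hQ hQ1
  have hN3 := Pool.Agent.H62.three_dvd_Nm hζ hQ hQ3
  obtain ⟨m, hm⟩ := hN3
  have hm' : (Nm (-((q : ℕ) : 𝓞 F)) - 1) / 3 = m := by omega
  have hy' : -((q : ℕ) : 𝓞 F) ∣ y ^ 3 - π := neg_dvd.2 hy
  have hqy : ¬ -((q : ℕ) : 𝓞 F) ∣ y := by
    intro h
    apply hqπ'
    have h1 : -((q : ℕ) : 𝓞 F) ∣ y ^ 3 := dvd_pow h three_ne_zero
    have h2 := dvd_sub h1 hy'
    rwa [sub_sub_cancel] at h2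
  have h6 := Pool.Agent.H62.fermat hQ hqy
  have h7 : -((q : ℕ) : 𝓞 F) ∣ hζ.toInteger ^ j - hζ.toInteger ^ 0 := by
    rw [hm'] at h5
    rw [hm, pow_mul] at h6
    have h8 : -((q : ℕ) : 𝓞 F) ∣ (y ^ 3) ^ m - π ^ m := hy'.trans (sub_dvd_pow_sub_pow _ _ m)
    have e : hζ.toInteger ^ j - hζ.toInteger ^ 0 =
        ((y ^ 3) ^ m - 1) - ((y ^ 3) ^ m - π ^ m) - (π ^ m - hζ.toInteger ^ j) := by
      rw [pow_zero]
      ring
    rw [e]
    exact dvd_sub (dvd_sub h6 h8) h5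
  have h8 := Pool.Agent.H62.z_ne hζ (I := Ideal.span {-((q : ℕ) : 𝓞 F)})
    (fun h => hQ3 (Ideal.mem_span_singleton.1 h)) (Ideal.mem_span_singleton.2 h7)
  rw [h8, pow_zero] at hj2
  obtain ⟨z, hz⟩ := cube_of_pow hπ hπq (Pool.Agent.H62.three_dvd_Nm hζ hπ hπ3) hj2
  -- `z ^ 3 = - q = - 3 = θ ^ 2` modulo `π`
  have h9 : π ∣ z ^ 3 - θ ^ 2 := by
    have e : z ^ 3 - θ ^ 2 = (z ^ 3 - -((q : ℕ) : 𝓞 F)) - (((q : ℕ) : 𝓞 F) - 3) := by
      rw [hθ]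
      ring
    rw [e]
    exact dvd_sub hz hqπ
  have hP : (Ideal.span {π}).IsPrime := (Ideal.span_singleton_prime hπ.ne_zero).2 hπ
  have hpid := IsCyclotomicExtension.Rat.three_pid F
  have hmax : (Ideal.span {π}).IsMaximal := hP.isMaximal (by
    rw [Ne, Ideal.span_singleton_eq_bot]
    exact hπ.ne_zero)
  have hzπ : ¬ π ∣ z := by
    intro h
    have h1 : π ∣ z ^ 3 := dvd_pow h three_ne_zero
    have h2 := dvd_sub h1 h9
    rw [sub_sub_cancel, hθ, dvd_neg] at h2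
    exact hπ3 h2
  obtain ⟨t, i, hi, ht⟩ := hmax.exists_inv (x := z) (fun h => hzπ (Ideal.mem_span_singleton.1 h))
  rw [Ideal.mem_span_singleton] at hi
  -- `t z = 1` modulo `π`
  refine hn ⟨θ * t, ?_⟩
  have h10 : π ∣ t * z - 1 := by
    have e : t * z - 1 = -i := by rw [← ht]; ring
    rw [e]
    exact dvd_neg.2 hi
  have h11 : π ∣ (t * z) ^ 3 - 1 ^ 3 := h10.trans (sub_dvd_pow_sub_pow _ _ 3)
  have e : (θ * t) ^ 3 - θ = θ * ((t * z) ^ 3 - 1 ^ 3) - θ * t ^ 3 * (z ^ 3 - θ ^ 2) := by ring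
  rw [e]
  exact dvd_sub (h11.mul_left _) (h9.mul_left _)

end

/-- **The rational primes.** -/
theorem sA2 : S_A2 := by
  classical
  intro F _ _ _ θ hθ n k B π hπ h3 hn
  obtain ⟨ζ, hζ⟩ := IsCyclotomicExtension.exists_isPrimitiveRoot ℚ F
    (Set.mem_singleton 3) (by norm_num)
  have hπ3 : ¬ π ∣ 3 := Pool.Agent.H62.not_dvd_three hπ h3
  have hN3 := Pool.Agent.H62.three_dvd_Nm hζ hπ hπ3
  rw [Nm_eq] at hN3
  obtain ⟨P, hPdef⟩ : ∃ P : ℕ, P = Ideal.absNorm (Ideal.span {π}) := ⟨_, rfl⟩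
  rw [← hPdef] at hN3
  have hP0 : P ≠ 0 := by
    rw [hPdef, Ne, Ideal.absNorm_eq_zero_iff, Ideal.span_singleton_eq_bot]
    exact hπ.ne_zero
  have hP1 : P ≠ 1 := by
    rw [hPdef, Ne, Ideal.absNorm_eq_one_iff, Ideal.span_singleton_eq_top]
    exact hπ.not_isUnit
  have hcop3 : Nat.Coprime P 3 := by
    rw [Nat.coprime_comm, Nat.Prime.coprime_iff_not_dvd Nat.prime_three]
    omega
  have hcop : Nat.Coprime P (3 ^ (n + 2)) := hcop3.pow_right _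
  obtain ⟨a, ha1, ha2⟩ := Nat.chineseRemainder hcop 3 (3 ^ (n + 2) - 1)
  have h9 : 9 ∣ 3 ^ (n + 2) := by
    have : (3 : ℕ) ^ 2 ∣ 3 ^ (n + 2) := pow_dvd_pow 3 (by omega)
    exact this
  have hpos : 0 < 3 ^ (n + 2) := by positivity
  have ha3 : 3 ^ (n + 2) ∣ a + 1 := by
    have h1 : a + 1 ≡ (3 ^ (n + 2) - 1) + 1 [MOD 3 ^ (n + 2)] := Nat.ModEq.add_right 1 ha2
    rw [Nat.sub_add_cancel hpos] at h1
    have h2 := h1.trans (show 3 ^ (n + 2) ≡ 0 [MOD 3 ^ (n + 2)] from by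
      rw [Nat.modEq_zero_iff_dvd])
    exact (Nat.modEq_zero_iff_dvd).1 h2
  have haM : IsUnit ((a : ℕ) : ZMod (P * 3 ^ (n + 2))) := by
    rw [ZMod.isUnit_iff_coprime]
    refine Nat.Coprime.mul_right ?_ ?_
    · have h1 : Nat.gcd a P = Nat.gcd 3 P := ha1.gcd_eq
      rw [Nat.Coprime, h1, Nat.gcd_comm]
      exact hcop3
    · refine Nat.Coprime.pow_right _ ?_
      rw [Nat.coprime_comm, Nat.Prime.coprime_iff_not_dvd Nat.prime_three]
      intro h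
      have h1 : 3 ∣ a + 1 := (dvd_pow_self 3 (by omega)).trans ha3
      omega
  have hM0 : NeZero (P * 3 ^ (n + 2)) := ⟨mul_ne_zero hP0 hpos.ne'⟩
  have hinf := Nat.infinite_setOfPred_prime_and_eq_mod haM
  obtain ⟨Q, hQ, hQc⟩ := (hinf.sdiff (Set.finite_le_nat B)).exists_subset_card_eq k
  refine ⟨Q, hQc, fun q hq => ?_⟩
  obtain ⟨⟨hq1, hq2⟩, hqB⟩ := hQ hq
  have hqB' : B < q := by
    by_contra h
    exact hqB (show q ≤ B by omega)
  have h1 : q ≡ a [MOD P * 3 ^ (n + 2)] := (ZMod.natCast_eq_natCast_iff _ _ _).1 hq2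
  have h2 : 3 ^ (n + 2) ∣ q + 1 := by
    have h4 : q + 1 ≡ a + 1 [MOD 3 ^ (n + 2)] := Nat.ModEq.add_right 1 (h1.of_dvd (dvd_mul_left _ _))
    exact (Nat.modEq_zero_iff_dvd).1 (h4.trans ((Nat.modEq_zero_iff_dvd).2 ha3))
  have h5 : q ≡ 3 [MOD P] := (h1.of_dvd (dvd_mul_right _ _)).trans ha1
  have h6 : π ∣ ((q : ℕ) : 𝓞 F) - 3 := by
    have h7 : π ∣ ((P : ℕ) : 𝓞 F) := by
      rw [hPdef, ← Ideal.mem_span_singleton]
      exact Ideal.absNorm_mem _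
    obtain ⟨m, hm⟩ := (Nat.modEq_iff_dvd).1 h5
    have h8 := congrArg (Int.cast : ℤ → 𝓞 F) hm
    push_cast at h8
    have e : ((q : ℕ) : 𝓞 F) - 3 = ((P : ℕ) : 𝓞 F) * -(m : 𝓞 F) := by linear_combination -h8
    rw [e]
    exact h7.mul_right _
  refine ⟨hq1, prime_inert hq1 (dvd_trans (by norm_num) (h9.trans h2)), ?_, hqB',
    not_cube_q hθ hπ h3 hn hq1 (h9.trans h2) h6⟩
  exact (pow_dvd_pow 3 (by omega)).trans h2

end Pool.Agent.H62.EX
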