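import Mathlib

/-! # Characters of order `3 ^ n` of the multiplicative group modulo a prime -/

set_option autoImplicit false

namespace Pool.Agent.H62.EX

/-- a character of a cyclic group of order divisible by `3 ^ (n + 1)`: of order `3 ^ n` at the elements
that are not cubes, trivial at the elements of order dividing six -/
theorem exists_chr {G : Type*} [CommGroup G] [Finite G] [IsCyclic G] {n : ℕ}
    (hG : 3 ^ (n + 1) ∣ Nat.card G) : ∃ χ : G →* ℂˣ, (∀ x, χ x ^ 3 ^ n = 1) ∧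
      (∀ x : G, (¬ ∃ y, y ^ 3 = x) → ∀ m : ℕ, χ x ^ m = 1 → 3 ^ n ∣ m) ∧
      (∀ x : G, x ^ 6 = 1 → χ x = 1) := by
  obtain ⟨g, hg⟩ := IsCyclic.exists_generator (α := G)
  have hog : orderOf g = Nat.card G := orderOf_eq_card_of_forall_mem_zpowers hg
  obtain ⟨ζ, hζ⟩ : ∃ ζ : ℂˣ, IsPrimitiveRoot ζ (3 ^ n) := by
    have h := Complex.isPrimitiveRoot_exp (3 ^ n) (by positivity)
    exact ⟨(h.isUnit (by positivity)).unit, h.isUnit_unit (by positivity)⟩
  have hoz : orderOf ζ = 3 ^ n := hζ.eq_orderOf.symm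
  have hdvd : orderOf ζ ∣ orderOf g := by
    rw [hoz, hog]
    exact (pow_dvd_pow 3 (Nat.le_succ n)).trans hG
  let χ : G →* ℂˣ := monoidHomOfForallMemZpowers hg hdvd
  have hχg : χ g = ζ := monoidHomOfForallMemZpowers_apply_gen hg hdvd
  have hχ : ∀ k : ℤ, χ (g ^ k) = ζ ^ k := fun k => by rw [map_zpow, hχg]
  refine ⟨χ, ?_, ?_, ?_⟩
  · intro x
    obtain ⟨k, rfl⟩ := Subgroup.mem_zpowers_iff.1 (hg x)
    rw [hχ, ← zpow_natCast, zpow_comm, zpow_natCast, hζ.pow_eq_one, one_zpow]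
  · intro x hx m hm
    obtain ⟨k, rfl⟩ := Subgroup.mem_zpowers_iff.1 (hg x)
    rw [hχ, ← zpow_natCast, ← zpow_mul] at hm
    have h1 : ((3 ^ n : ℕ) : ℤ) ∣ k * m := by
      rw [hζ.zpow_eq_one_iff_dvd] at hm
      exact hm
    have h3 : ¬ (3 : ℤ) ∣ k := by
      rintro ⟨j, rfl⟩
      exact hx ⟨g ^ j, by rw [← zpow_natCast, ← zpow_mul]; congr 1; push_cast; ring⟩
    have hc : IsCoprime ((3 ^ n : ℕ) : ℤ) k := by
      push_cast
      refine IsCoprime.pow_left ?_
      rw [Int.isCoprime_iff_gcd_eq_one]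
      have h4 : Nat.Coprime 3 k.natAbs := (Nat.Prime.coprime_iff_not_dvd Nat.prime_three).2
        fun h => h3 (by rw [← Int.dvd_natAbs]; exact_mod_cast h)
      exact h4
    exact_mod_cast hc.dvd_of_dvd_mul_left h1
  · intro x hx
    obtain ⟨k, rfl⟩ := Subgroup.mem_zpowers_iff.1 (hg x)
    rw [hχ]
    rw [hζ.zpow_eq_one_iff_dvd]
    rw [← zpow_natCast, ← zpow_mul] at hx
    have h1 : ((Nat.card G : ℕ) : ℤ) ∣ k * 6 := by
      rw [← hog]
      have := orderOf_dvd_iff_zpow_eq_one.2 hx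
      exact_mod_cast this
    have h2 : (3 ^ (n + 1) : ℤ) ∣ k * 6 := by
      have : ((3 ^ (n + 1) : ℕ) : ℤ) ∣ ((Nat.card G : ℕ) : ℤ) := by exact_mod_cast hG
      push_cast at this
      exact this.trans h1
    have h3 : (3 ^ n : ℤ) ∣ k * 2 := by
      have : (3 ^ n * 3 : ℤ) ∣ (k * 2) * 3 := by
        rw [← pow_succ]
        have e : k * 2 * 3 = k * 6 := by ring
        rw [e]
        exact h2
      exact Int.dvd_of_mul_dvd_mul_right (by norm_num) this
    have hc : IsCoprime (3 ^ n : ℤ) 2 := IsCoprime.pow_left (by norm_num)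
    push_cast
    exact hc.dvd_of_dvd_mul_right h3

end Pool.Agent.H62.EX
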