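import Pool.Agent.H62.EX.Fin
import Pool.Agent.H40.EX.D
import Pool.Agent.H68.EX.Loc

/-!
# The existence of the fields
-/

set_option autoImplicit false

namespace Pool.Agent.H62.EX

open NumberField IsDedekindDomain

theorem sLoc : S_Loc := by
  intro F K _ _ _ _ _ _ _ _ ζ n S T hunr p0 hp0 h1 h2
  exact Pool.Agent.H68.EX.loc T hunr p0 hp0 h1 h2

/-- **The fields exist.** -/
theorem goal (hA1 : S_A1) : S_Goal := goal_of' hA1 Pool.Agent.H40.EX.sD sLoc

end Pool.Agent.H62.EX
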