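import Pool.Graph.R_pool_sql_team_seeded_3997aac3.Q20.EX.Stm2
import Pool.Graph.R_seed8.Y696.Bld

/-!
# Existence of the fields of the theorems on the 3-part of the formula of Birch and Swinnerton-Dyer

GOAL (`S_Goal`): for `F = ℚ(√-3)` and all `n ≥ 1`, `k`, `B` there is a cyclic extension `K/F` of degree `3 ^ n`
with one prime above three, totally ramified at exactly `k + 1` primes, of norm `> B`, `≡ 1` modulo `3 √-3`
and of norm `≡ 1` modulo `3 ^ (n + 1)`, unramified at all others, with the condition on local cubes.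

`S_A` (primes) + `S_D` (conductors: a character without conductor at `v` is unramified at `v`) → `S_EX`
(existence theorem with conductor) → `S_Goal`.
-/

set_option autoImplicit false

namespace Pool.Agent.H62.EX

open NumberField IsDedekindDomain Pool.Agent.Q92.AR Pool.Agent.Q20.EX

/-- JOB A. The primes.  `π` is a prime with `3^(n+1) ∣ N π - 1` modulo which `√-3` is not a cube (Chebotarev for
`F(ζ_{3^(n+1)}, ∛3)/F`, `Pool.Agent.Q14.AR.cheb`), normalised such that `3 ∣ π - 1`; then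
`3 θ ∣ π - 1` as `9 ∣ N π - 1`, and `¬ 9 ∣ π - 1` by the supplementary law; `q ≡ -1` modulo `3^(n+1)` are rational
primes (Dirichlet, Mathlib) which are not cubes modulo `π` (`N π` is a rational prime `p`, as the
rational numbers, so also `3`, are cubes modulo inert primes; take `q` modulo `p` suitable), so `π` is not a cube
modulo `q` by cubic reciprocity. -/
def S_A : Prop := ∀ (F : Type) [Field F] [NumberField F] [IsCyclotomicExtension {3} ℚ F] (θ : 𝓞 F),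
  θ ^ 2 = -3 → ∀ n k B : ℕ, n ≠ 0 → ∃ (π : 𝓞 F) (Q : Finset ℕ), Prime π ∧ 3 * θ ∣ π - 1 ∧
    ¬ 9 ∣ π - 1 ∧ 3 ^ (n + 1) ∣ Ideal.absNorm (Ideal.span {π}) - 1 ∧
    B < Ideal.absNorm (Ideal.span {π}) ∧ (¬ ∃ y : 𝓞 F, π ∣ y ^ 3 - θ) ∧ Q.card = k ∧
    ∀ q ∈ Q, q.Prime ∧ Prime ((q : ℕ) : 𝓞 F) ∧ 3 ^ (n + 1) ∣ q + 1 ∧ B < q ∧
      ¬ ∃ y : 𝓞 F, ((q : ℕ) : 𝓞 F) ∣ y ^ 3 - π

/-- JOB A1. The prime `π`.
Proof.  `M` = splitting field over `F` of `(X ^ (3 ^ (n + 1)) - 1) (X ^ 3 - θ)`; `r ^ 3 = θ`, `ζ'` a primitive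
`3 ^ (n + 1)`-th root of unity.  There is a `g ∈ Gal(M/F)` with `g ζ' = ζ'`, `g r ≠ r`: otherwise `r ∈ ℚ(ζ')`, which is abelian
over `ℚ`; `s = - r²` is a cube root of `3`; some `σ` fixing `ω` moves `s` (`3` is not a cube in `F`, norms), `σ s = ω^a s`; with `τ ω = ω²`
(`τ` an extension of the automorphism of `F`), `σ τ s = τ σ s` gives `ω^a = 1`.  `Pool.Agent.Q14.AR.cheb` gives infinitely many primes `v` of `F` with
Frobenius `g` (exclude the finitely many with norm `≤ B`, those above `3`).  `v = (π)`, `g ζ' = ζ'^(N v)` shows `3 ^ (n + 1) ∣ N v - 1`;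
if `θ ≡ y ^ 3` modulo `v` then `r ≡ ω^i y` modulo `w`, `g r ≡ r ^ (N v) ≡ r`, so `g r = r`.  Multiply `π` by a unit to get `3 ∣ π - 1`, then
`π = 1 + 3 t`, `N π = 1 + 3 Tr t + 9 N t`, so `3 ∣ Tr t`, `θ ∣ t`. -/
def S_A1 : Prop := ∀ (F : Type) [Field F] [NumberField F] [IsCyclotomicExtension {3} ℚ F] (θ : 𝓞 F),
  θ ^ 2 = -3 → ∀ n B : ℕ, n ≠ 0 → ∃ π : 𝓞 F, Prime π ∧ 3 * θ ∣ π - 1 ∧
    3 ^ (n + 1) ∣ Ideal.absNorm (Ideal.span {π}) - 1 ∧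
    B < Ideal.absNorm (Ideal.span {π}) ∧ ¬ ∃ y : 𝓞 F, π ∣ y ^ 3 - θ

/-- JOB A2. The rational primes. -/
def S_A2 : Prop := ∀ (F : Type) [Field F] [NumberField F] [IsCyclotomicExtension {3} ℚ F] (θ : 𝓞 F),
  θ ^ 2 = -3 → ∀ (n k B : ℕ) (π : 𝓞 F), Prime π → 3 * θ ∣ π - 1 → (¬ ∃ y : 𝓞 F, π ∣ y ^ 3 - θ) →
  ∃ Q : Finset ℕ, Q.card = k ∧
    ∀ q ∈ Q, q.Prime ∧ Prime ((q : ℕ) : 𝓞 F) ∧ 3 ^ (n + 1) ∣ q + 1 ∧ B < q ∧
      ¬ ∃ y : 𝓞 F, ((q : ℕ) : 𝓞 F) ∣ y ^ 3 - π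

/-- JOB D. A character of order a power of `ℓ` whose Artin character has conductor dividing the product of the
primes of `T` (`v ∤ ℓ` for `v ∈ T`) is unramified outside `T`.
Proof.  Let `w`, `g` be as in the statement, `v = w.under`.  Choose `x0 ∈ 𝓞 F` with `v'(x0) = 1` for all `v' ∈ T` and
`x0 ≡ 1` modulo a high power of `v`.  Let `M1 ⊇ M` be a number field, Galois over `F`, which contains the roots of
`X ^ (ℓ ^ n) - x0`, `w1` above `w`; lift `g` to an inertia element `g1` of `w1` (or only to an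
element of the decomposition group, if this is enough).  Since `∏ (1 - r) = 1 - x0` over the roots `r`, one root `r`
is `≡ 1` modulo a high power of `w1`; then `g1 r ≡ 1` too and `g1 r = ζ r`, so `g1 r = r` (`ζ - 1` divides
a power of `ℓ`).  Let `E = F(r)`: it is totally ramified, of degree `ℓ ^ n`, at the primes of `T`, so for `y ∈ Eˣ`
prime to `T` the norm of `y` is `≡ c ^ (ℓ ^ n)` modulo every `v' ∈ T` with a `c ∈ F` (chinese remainder).  So the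
character `art ψ ∘ nmD F E` of `Dv E` kills the `prin y`, `y` prime to `N`: `TrivAt univ`.  It is the Artin character
of the restriction of (the inflation of) `ψ` to `Gal(M1/E)` (`Pool.Agent.Q275.EX.res : S_RES`, `S_FR` (1)).  By
`Pool.Agent.Q53.EX.unr : S_UNR` this is trivial on inertia groups, and `g1 ∈ Gal(M1/E)` is inertial. -/
def S_D : Prop := ∀ (F M : Type) [Field F] [NumberField F] [Field M] [NumberField M] [Algebra F M]
  [IsGalois F M] [IsEmpty (F →+* ℝ)] (ψ : (M ≃ₐ[F] M) →* ℂˣ) (ℓ n N : ℕ)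
  (T : Finset (HeightOneSpectrum (𝓞 F))), ℓ.Prime → N ≠ 0 → Ram F M N →
  (∀ v ∈ T, (ℓ : 𝓞 F) ∉ v.asIdeal) →
  (∀ x : Fˣ, Un N x → (∀ v ∈ T, v.valuation F ((x : F) - 1) < 1) → art ψ (prin x) = 0) →
  (∀ x : Fˣ, Un N x → (∀ v ∈ T, v.valuation F (x : F) = 1) → ℓ ^ n • art ψ (prin x) = 0) →
  ∀ (w : HeightOneSpectrum (𝓞 M)) (g : M ≃ₐ[F] M), w.under (𝓞 F) ∉ T →
    (∀ x : 𝓞 M, w.valuation M (g (x : M) - (x : M)) < 1) → ψ g = 1

/-- JOB EX. The existence theorem with conductor, for characters of order `3 ^ n` of `F = ℚ(√-3)`. -/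
def S_EX : Prop := ∀ (F : Type) [Field F] [NumberField F] [IsCyclotomicExtension {3} ℚ F]
  (S : Finset (𝓞 F)) (n : ℕ), n ≠ 0 → (∀ p ∈ S, Prime p ∧ (3 : 𝓞 F) ∣ p - 1) →
  ∀ χ : (𝓞 F ⧸ Ideal.span {∏ p ∈ S, p})ˣ →* ℂˣ,
  (∀ u : (𝓞 F)ˣ, χ (Units.map (Ideal.Quotient.mk (Ideal.span {∏ p ∈ S, p}) : 𝓞 F →* _) u) = 1) →
  (∀ x, χ x ^ 3 ^ n = 1) → (∃ x, orderOf (χ x) = 3 ^ n) →
  ∃ (K : Type) (_ : Field K) (_ : NumberField K) (_ : Algebra F K) (_ : IsGalois F K)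
    (ψ : Gal(K/F) →* ℂˣ) (art : (𝓞 F ⧸ Ideal.span {∏ p ∈ S, p})ˣ →* Gal(K/F)),
    IsCyclic Gal(K/F) ∧ Module.finrank F K = 3 ^ n ∧ Function.Injective ψ ∧
    Pool.Agent.Y696.Art (∏ p ∈ S, p) art ∧ ∀ x, ψ (art x) = χ x

/-- (R), as in the statement of the theorem -/
def LocalCubes (F K : Type) [Field F] [NumberField F] [Field K] [NumberField K] [Algebra F K]
    (S : Finset (𝓞 F)) : Prop :=
  ∀ x : 𝓞 F → ℕ,
    (∀ v : HeightOneSpectrum (𝓞 K), (∃ π ∈ S, algebraMap (𝓞 F) (𝓞 K) π ∈ v.asIdeal) →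
      ∃ y : v.adicCompletion K,
        y ^ 3 = algebraMap K (v.adicCompletion K) (algebraMap F K (∏ π ∈ S, π ^ x π : 𝓞 F))) →
    ∃ z : K, z ^ 3 = algebraMap F K (∏ π ∈ S, π ^ x π : 𝓞 F)

/-- The goal. -/
def S_Goal : Prop := ∀ (F : Type) [Field F] [NumberField F] [IsCyclotomicExtension {3} ℚ F]
  (θ : 𝓞 F), θ ^ 2 = -3 → ∀ n k B : ℕ, n ≠ 0 →
  ∃ (K : Type) (_ : Field K) (_ : NumberField K) (_ : Algebra F K) (_ : IsGalois F K)
    (S : Finset (𝓞 F)), IsCyclic Gal(K/F) ∧ Module.finrank F K = 3 ^ n ∧ S.card = k + 1 ∧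
    (∀ π ∈ S, Prime π ∧ 3 * θ ∣ π - 1 ∧ 3 ^ (n + 1) ∣ Ideal.absNorm (Ideal.span {π}) - 1 ∧
      B < Ideal.absNorm (Ideal.span {π}) ∧ (k = 0 → ¬ 9 ∣ π - 1)) ∧
    (∀ w : HeightOneSpectrum (𝓞 K), (∀ π ∈ S, algebraMap (𝓞 F) (𝓞 K) π ∉ w.asIdeal) →
      Algebra.IsUnramifiedAt (𝓞 F) w.asIdeal) ∧
    (∀ π ∈ S, ∀ v : HeightOneSpectrum (𝓞 K), algebraMap (𝓞 F) (𝓞 K) π ∈ v.asIdeal →
      ∀ (g : Gal(K/F)) (x : 𝓞 K), g • x - x ∈ v.asIdeal) ∧
    (∀ v w : HeightOneSpectrum (𝓞 K), 3 ∈ v.asIdeal → 3 ∈ w.asIdeal → v = w) ∧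
    LocalCubes F K S

end Pool.Agent.H62.EX
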