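import Pool.Agent.H62.EX.Nine
import Pool.Agent.H62.EX.A2

/-!
# Existence of the fields: assembly
-/

set_option autoImplicit false
set_option linter.unusedSectionVars false

namespace Pool.Agent.H62.EX

open NumberField IsDedekindDomain
open Pool.Agent.H62 (Ms UnrS)

/-- the supplementary law from the existence of the field -/
theorem sA_of (hA1 : S_A1) (hD : S_D) (hLoc : S_Loc) : S_A := by
  classical
  intro F _ _ _ θ hθ n k B hn0
  obtain ⟨π, hπ, h3θ, hNπ, hBπ, hθπ⟩ := hA1 F θ hθ n B hn0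
  have h3 : (3 : 𝓞 F) ∣ π - 1 := (dvd_mul_right _ _).trans h3θ
  have h9 : ¬ 9 ∣ π - 1 := by
    obtain ⟨K, _, _, _, _, hcyc, hfin, S, hS, hScard, hunr, htot, huniq, -⟩ :=
      exists_K hD hLoc hθ hn0 hπ h3 hNπ hθπ (Q := ∅) (fun q hq => absurd hq (Finset.notMem_empty q))
    have hSe : S = {π} := by
      ext p
      rw [hS, Finset.mem_singleton]
      constructor
      · rintro (h | ⟨q, hq, -⟩)
        · exact h
        · exact absurd hq (Finset.notMem_empty q)
      · exact Or.inl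
    subst hSe
    obtain ⟨ζ, hζ⟩ := IsCyclotomicExtension.exists_isPrimitiveRoot ℚ F
      (Set.mem_singleton 3) (by norm_num)
    have hS3 : ∀ p ∈ ({π} : Finset (𝓞 F)), Prime p ∧ (3 : 𝓞 F) ∣ p - 1 := by
      intro p hp
      rw [Finset.mem_singleton] at hp
      rw [hp]
      exact ⟨hπ, h3⟩
    have hc3 : (3 : 𝓞 F) ∣ (∏ p ∈ ({π} : Finset (𝓞 F)), p) - 1 := by
      rw [Finset.prod_singleton]
      exact h3
    obtain ⟨art, hart⟩ := Pool.Agent.H62.Cft.art_of_cyclic (K := K) hfin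
      (Finset.prod_ne_zero_iff.2 fun p hp => (hS3 p hp).1.ne_zero) hc3 (fun w hw =>
        hunr w fun p hp h => hw (by
          rw [map_prod]
          exact w.asIdeal.mem_of_dvd (Finset.dvd_prod_of_mem _ hp) h))
    have hA : Pool.Agent.Y696.Art (∏ p ∈ ({π} : Finset (𝓞 F)), p) art := hart
    have T := Pool.Agent.H62.ms_of_art hζ hn0 hfin hS3 (Pool.Agent.H62.un3_of hA hc3) htot huniq
    exact not_nine T (Pool.Agent.H62.unrS_of hA)
  obtain ⟨Q, hQk, hQ⟩ := sA2 F θ hθ n k B π hπ h3θ hθπ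
  exact ⟨π, Q, hπ, h3θ, h9, hNπ, hBπ, hθπ, hQk, hQ⟩

/-- **The existence of the fields.** -/
theorem goal_of' (hA1 : S_A1) (hD : S_D) (hLoc : S_Loc) : S_Goal :=
  goal_of (sA_of hA1 hD hLoc) hD hLoc

end Pool.Agent.H62.EX
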