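import Pool.Agent.H62.EX.Exi
import Pool.Agent.H62.EX.Lms
import Pool.Agent.H62.Lt6
import Pool.Agent.H62.Fin7

/-!
# The existence of the fields
-/

set_option autoImplicit false
set_option linter.unusedSectionVars false
set_option linter.deprecated false

namespace Pool.Agent.H62.EX

open NumberField IsDedekindDomain Pool.Agent.H62.Cft
open Pool.Agent.Y696 (Art)

/-- the condition on local cubes (Pool/Agent/H68/EX/Loc.lean) -/
def S_Loc : Prop := ∀ (F K : Type) [Field F] [NumberField F] [IsCyclotomicExtension {3} ℚ F] [Field K]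
  [NumberField K] [Algebra F K] [IsGalois F K] [IsCyclic Gal(K/F)] (ζ : F) (n : ℕ) (S : Finset (𝓞 F)),
  Pool.Agent.H62.Ms F K ζ n S → Pool.Agent.H62.UnrS K S → ∀ p0 ∈ S,
  (∀ t ∈ S, t ≠ p0 → ¬ ∃ y : 𝓞 F, t ∣ y ^ 3 - p0) →
  (∀ t ∈ S, ∀ s ∈ S, t ≠ p0 → s ≠ p0 → s ≠ t → ∃ y : 𝓞 F, t ∣ y ^ 3 - s) → LocalCubes F K S

section
variable {F : Type} [Field F] [NumberField F] [IsCyclotomicExtension {3} ℚ F]

theorem mem_c_iff {S : Finset (𝓞 F)} {v : HeightOneSpectrum (𝓞 F)} :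
    (∏ p ∈ S, p) ∈ v.asIdeal ↔ ∃ p ∈ S, p ∈ v.asIdeal := by
  have := v.isPrime
  exact Ideal.IsPrime.prod_mem_iff

theorem dvd_of_mem {p x : 𝓞 F} (hp : Prime p) {v : HeightOneSpectrum (𝓞 F)} (hv : p ∈ v.asIdeal)
    (hx : x ∈ v.asIdeal) : p ∣ x := by
  rw [span_of_prime hp hv] at hx
  exact Ideal.mem_span_singleton.1 hx

theorem theta_not_mem {θ : 𝓞 F} (hθ : θ ^ 2 = -3) {p : 𝓞 F} (h3 : (3 : 𝓞 F) ∣ p - 1)
    {v : HeightOneSpectrum (𝓞 F)} (hv : p ∈ v.asIdeal) : θ ∉ v.asIdeal := by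
  intro h
  refine three_not_mem h3 v hv ?_
  have h1 : -(θ ^ 2) ∈ v.asIdeal := v.asIdeal.neg_mem (v.asIdeal.pow_mem_of_mem h 2 (by norm_num))
  rw [hθ, neg_neg] at h1
  exact_mod_cast h1

/-- **The existence of the fields.** -/
theorem exists_K (hD : S_D) (hLoc : S_Loc) {θ : 𝓞 F} (hθ : θ ^ 2 = -3) {n : ℕ} (hn0 : n ≠ 0)
    {π : 𝓞 F} {Q : Finset ℕ} (hπ : Prime π) (hπ3 : (3 : 𝓞 F) ∣ π - 1)
    (hNπ : 3 ^ (n + 1) ∣ Ideal.absNorm (Ideal.span {π}) - 1)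
    (hθπ : ¬ ∃ y : 𝓞 F, π ∣ y ^ 3 - θ)
    (hQ : ∀ q ∈ Q, q.Prime ∧ Prime ((q : ℕ) : 𝓞 F) ∧ 3 ^ (n + 1) ∣ q + 1 ∧
      ¬ ∃ y : 𝓞 F, ((q : ℕ) : 𝓞 F) ∣ y ^ 3 - π) :
    ∃ (K : Type) (_ : Field K) (_ : NumberField K) (_ : Algebra F K) (_ : IsGalois F K),
      IsCyclic Gal(K/F) ∧ Module.finrank F K = 3 ^ n ∧
      ∃ S : Finset (𝓞 F), (∀ p, p ∈ S ↔ p = π ∨ ∃ q ∈ Q, p = -((q : ℕ) : 𝓞 F)) ∧ S.card = Q.card + 1 ∧
      (∀ w : HeightOneSpectrum (𝓞 K), (∀ π ∈ S, algebraMap (𝓞 F) (𝓞 K) π ∉ w.asIdeal) →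
        Algebra.IsUnramifiedAt (𝓞 F) w.asIdeal) ∧
      (∀ π ∈ S, ∀ v : HeightOneSpectrum (𝓞 K), algebraMap (𝓞 F) (𝓞 K) π ∈ v.asIdeal →
        ∀ (g : Gal(K/F)) (x : 𝓞 K), g • x - x ∈ v.asIdeal) ∧
      (∀ v w : HeightOneSpectrum (𝓞 K), 3 ∈ v.asIdeal → 3 ∈ w.asIdeal → v = w) ∧
      LocalCubes F K S := by
  classical
  have hreal := no_real F
  have hpid := IsCyclotomicExtension.Rat.three_pid F
  obtain ⟨S, hSdef⟩ : ∃ S : Finset (𝓞 F), S = insert π (Q.image fun q => -((q : ℕ) : 𝓞 F)) := ⟨_, rfl⟩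
  have hmem : ∀ p, p ∈ S ↔ p = π ∨ ∃ q ∈ Q, p = -((q : ℕ) : 𝓞 F) := by
    intro p
    rw [hSdef, Finset.mem_insert, Finset.mem_image]
    constructor
    · rintro (h | ⟨q, hq, h⟩)
      · exact Or.inl h
      · exact Or.inr ⟨q, hq, h.symm⟩
    · rintro (h | ⟨q, hq, h⟩)
      · exact Or.inl h
      · exact Or.inr ⟨q, hq, h.symm⟩
  have h9n : 3 ∣ 3 ^ (n + 1) := dvd_pow_self 3 (Nat.succ_ne_zero n)
  -- the primes of `S`
  have hS3 : ∀ p ∈ S, Prime p ∧ (3 : 𝓞 F) ∣ p - 1 := by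
    intro p hp
    rcases (hmem p).1 hp with rfl | ⟨q, hq, rfl⟩
    · exact ⟨hπ, hπ3⟩
    · refine ⟨(hQ q hq).2.1.neg, ?_⟩
      obtain ⟨m, hm⟩ := h9n.trans (hQ q hq).2.2.1
      refine ⟨-(m : 𝓞 F), ?_⟩
      have := congrArg (Nat.cast : ℕ → 𝓞 F) hm
      push_cast at this
      linear_combination -this
  have hSN : ∀ p ∈ S, 3 ^ (n + 1) ∣ Ideal.absNorm (Ideal.span {p}) - 1 := by
    intro p hp
    rcases (hmem p).1 hp with rfl | ⟨q, hq, rfl⟩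
    · exact hNπ
    · rw [Ideal.span_singleton_neg, span_natCast_norm]
      have h1 : q ^ 2 - 1 = (q + 1) * (q - 1) := by
        rw [← Nat.sq_sub_sq, one_pow]
      rw [h1]
      exact (hQ q hq).2.2.1.mul_right _
  have hne : ∀ p ∈ S, ∀ q ∈ S, Associated p q → p = q := fun p hp q hq h =>
    eq_of_assoc (hS3 p hp).1 (hS3 q hq).1 (hS3 p hp).2 (hS3 q hq).2 h
  obtain ⟨c, hcdef⟩ : ∃ c : 𝓞 F, c = ∏ p ∈ S, p := ⟨_, rfl⟩
  have hpc : ∀ p ∈ S, p ∣ c := fun p hp => hcdef ▸ Finset.dvd_prod_of_mem _ hp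
  have hc0 : c ≠ 0 := hcdef ▸ Finset.prod_ne_zero_iff.2 fun p hp => (hS3 p hp).1.ne_zero
  have hc3 : (3 : 𝓞 F) ∣ c - 1 := hcdef ▸ Pool.Agent.H62.three_dvd_prod hS3
  have hcv : ∀ v : HeightOneSpectrum (𝓞 F), c ∈ v.asIdeal ↔ ∃ p ∈ S, p ∈ v.asIdeal := fun v => by
    rw [hcdef]
    exact mem_c_iff
  have hcd : ∀ x : 𝓞 F, (∀ v : HeightOneSpectrum (𝓞 F), c ∈ v.asIdeal → x ∈ v.asIdeal) → c ∣ x := by
    intro x hx
    rw [hcdef]
    refine prod_dvd (fun p hp => (hS3 p hp).1) hne fun p hp => ?_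
    have hmax : (Ideal.span {p}).IsPrime :=
      (Ideal.span_singleton_prime (hS3 p hp).1.ne_zero).2 (hS3 p hp).1
    have h1 := hx ⟨Ideal.span {p}, hmax, by
      rw [Ne, Ideal.span_singleton_eq_bot]
      exact (hS3 p hp).1.ne_zero⟩ (Ideal.mem_span_singleton.2 (hpc p hp))
    exact Ideal.mem_span_singleton.1 h1
  -- the characters
  have hex : ∀ p ∈ S, ∃ X : (𝓞 F ⧸ Ideal.span {c})ˣ →* ℂˣ, (∀ u, X u ^ 3 ^ n = 1) ∧
      (∀ (u : (𝓞 F ⧸ Ideal.span {c})ˣ) (y : 𝓞 F), (u : 𝓞 F ⧸ Ideal.span {c}) = Ideal.Quotient.mk _ y →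
        (¬ ∃ z : 𝓞 F, p ∣ z ^ 3 - y) → ∀ m : ℕ, X u ^ m = 1 → 3 ^ n ∣ m) ∧
      (∀ (u : (𝓞 F ⧸ Ideal.span {c})ˣ) (y : 𝓞 F), (u : 𝓞 F ⧸ Ideal.span {c}) = Ideal.Quotient.mk _ y →
        p ∣ y ^ 6 - 1 → X u = 1) ∧
      (∀ (u : (𝓞 F ⧸ Ideal.span {c})ˣ) (y : 𝓞 F), (u : 𝓞 F ⧸ Ideal.span {c}) = Ideal.Quotient.mk _ y →
        p ∣ y - 1 → X u = 1) := fun p hp => exists_X (hS3 p hp).1 (hpc p hp) (hSN p hp)
  choose! X hX1 hX2 hX3 hX4 using hex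
  obtain ⟨χ, hχdef⟩ : ∃ χ : (𝓞 F ⧸ Ideal.span {c})ˣ →* ℂˣ, ∀ u, χ u = ∏ p ∈ S, X p u :=
    ⟨∏ p ∈ S, X p, fun u => MonoidHom.finsetProd_apply _ _ _⟩
  have hχ : ∀ (e : (𝓞 F)ˣ) (u : (𝓞 F ⧸ Ideal.span {c})ˣ),
      (u : 𝓞 F ⧸ Ideal.span {c}) = Ideal.Quotient.mk _ (e : 𝓞 F) → χ u = 1 := by
    intro e u hu
    rw [hχdef]
    refine Finset.prod_eq_one fun p hp => hX3 p hp u e hu ?_
    rw [unit_six e.isUnit, sub_self]
    exact dvd_zero p
  have hχn : ∀ x, χ x ^ 3 ^ n = 1 := by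
    intro x
    rw [hχdef, ← Finset.prod_pow]
    exact Finset.prod_eq_one fun p hp => hX1 p hp x
  -- only one component
  have hone : ∀ p ∈ S, ∀ (u : (𝓞 F ⧸ Ideal.span {c})ˣ) (y : 𝓞 F),
      (u : 𝓞 F ⧸ Ideal.span {c}) = Ideal.Quotient.mk _ y → (∀ s ∈ S, s ≠ p → X s u = 1) →
      (¬ ∃ z : 𝓞 F, p ∣ z ^ 3 - y) → ∀ m : ℕ, χ u ^ m = 1 → 3 ^ n ∣ m := by
    intro p hp u y hu hs hy m hm
    refine hX2 p hp u y hu hy m ?_
    rw [hχdef, Finset.prod_eq_single_of_mem p hp fun s hsS hne => hs s hsS hne] at hm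
    exact hm
  -- `θ`
  have hπS : π ∈ S := (hmem π).2 (Or.inl rfl)
  obtain ⟨uθ, huθ⟩ := isUnit_mk (a := θ) hc0 (fun v hv => by
    obtain ⟨p, hp, hpv⟩ := (hcv v).1 hv
    exact theta_not_mem hθ (hS3 p hp).2 hpv)
  have hordθ : ∀ m : ℕ, χ uθ ^ m = 1 → 3 ^ n ∣ m := by
    refine hone π hπS uθ θ huθ (fun s hs hsπ => ?_) hθπ
    rcases (hmem s).1 hs with rfl | ⟨q, hq, rfl⟩
    · exact absurd rfl hsπ
    · have h1 : X (-((q : ℕ) : 𝓞 F)) uθ ^ (2 * (q - 1)) = 1 := by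
        rw [← map_pow]
        refine hX4 _ hs _ (θ ^ (2 * (q - 1))) (by rw [Units.val_pow_eq_pow_val, huθ, map_pow]) ?_
        rw [neg_dvd]
        exact theta_pow (hQ q hq).1 (h9n.trans (hQ q hq).2.2.1) hθ
      have h2 := hX1 _ hs uθ
      have hcop : Nat.Coprime (2 * (q - 1)) (3 ^ n) := by
        refine Nat.Coprime.pow_right n ?_
        rw [Nat.coprime_comm, Nat.Prime.coprime_iff_not_dvd Nat.prime_three]
        have h3 : 3 ∣ q + 1 := h9n.trans (hQ q hq).2.2.1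
        have h4 := (hQ q hq).1.one_lt
        omega
      have h3 : orderOf (X (-((q : ℕ) : 𝓞 F)) uθ) ∣ Nat.gcd (2 * (q - 1)) (3 ^ n) :=
        Nat.dvd_gcd (orderOf_dvd_of_pow_eq_one h1) (orderOf_dvd_of_pow_eq_one h2)
      rw [hcop, Nat.dvd_one, orderOf_eq_one_iff] at h3
      exact h3
  have hoθ : orderOf (χ uθ) = 3 ^ n :=
    Nat.dvd_antisymm (orderOf_dvd_of_pow_eq_one (hχn uθ)) (hordθ _ (pow_orderOf_eq_one _))
  obtain ⟨K, _, _, _, _, ψ, A, hcyc, hfin, hinj, hA, hψA⟩ :=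
    exists_field' hD F hc0 hc3 hcd χ hχ hχn ⟨uθ, hoθ⟩
  have hcard : Nat.card Gal(K/F) = 3 ^ n := by rw [IsGalois.card_aut_eq_finrank, hfin]
  -- total ramification
  have htot : ∀ p ∈ S, ∀ v : HeightOneSpectrum (𝓞 K), algebraMap (𝓞 F) (𝓞 K) p ∈ v.asIdeal →
      ∀ (g : Gal(K/F)) (x : 𝓞 K), g • x - x ∈ v.asIdeal := by
    intro p hp v hv g x
    have h3N : 3 ∣ Ideal.absNorm (Ideal.span {p}) - 1 := h9n.trans (hSN p hp)
    obtain ⟨y0, hy0⟩ := exists_noncube (hS3 p hp).1 h3N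
    have hc1 : Ideal.absNorm (Ideal.span {c}) ≠ 0 := by
      rw [Ne, Ideal.absNorm_eq_zero_iff, Ideal.span_singleton_eq_bot]
      exact hc0
    obtain ⟨y, hy⟩ := exists_near (F := F) hc1 (fun w => if p ∈ w.asIdeal then y0 else 1)
    have hcN : ∀ v : HeightOneSpectrum (𝓞 F), c ∈ v.asIdeal →
        ((Ideal.absNorm (Ideal.span {c}) : ℕ) : 𝓞 F) ∈ v.asIdeal := fun v hv =>
      (Ideal.span_singleton_le_iff_mem _).2 hv (Ideal.absNorm_mem _)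
    let P : HeightOneSpectrum (𝓞 F) := v.under (𝓞 F)
    have hpP : p ∈ P.asIdeal := hv
    have hcP : c ∈ P.asIdeal := (hcv P).2 ⟨p, hp, hpP⟩
    have hPeq : ∀ w : HeightOneSpectrum (𝓞 F), p ∈ w.asIdeal → w = P := by
      intro w hw
      apply HeightOneSpectrum.ext
      rw [span_of_prime (hS3 p hp).1 hw, span_of_prime (hS3 p hp).1 hpP]
    have hyp : p ∣ y - y0 := by
      have h1 := (hy P (hcN P hcP)).1
      rw [if_pos hpP] at h1
      exact dvd_of_mem (hS3 p hp).1 hpP h1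
    have hyn : ¬ ∃ z : 𝓞 F, p ∣ z ^ 3 - y := by
      rintro ⟨z, hz⟩
      refine hy0 ⟨z, ?_⟩
      have := dvd_add hz hyp
      rwa [sub_add_sub_cancel] at this
    have hy1 : ∀ w : HeightOneSpectrum (𝓞 F), c ∈ w.asIdeal → p ∉ w.asIdeal → y - 1 ∈ w.asIdeal := by
      intro w hw hpw
      have h1 := (hy w (hcN w hw)).1
      rwa [if_neg hpw] at h1
    have hyu : ∀ w : HeightOneSpectrum (𝓞 F), c ∈ w.asIdeal → y ∉ w.asIdeal := by
      intro w hw hyw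
      by_cases hpw : p ∈ w.asIdeal
      · refine hyn ⟨0, ?_⟩
        rw [zero_pow three_ne_zero, zero_sub, dvd_neg]
        exact dvd_of_mem (hS3 p hp).1 hpw hyw
      · have h1 := w.asIdeal.sub_mem hyw (hy1 w hw hpw)
        rw [sub_sub_cancel] at h1
        exact w.isPrime.ne_top ((Ideal.eq_top_iff_one _).2 h1)
    obtain ⟨u, hu⟩ := isUnit_mk hc0 hyu
    refine tot_ram hn0 hfin hc0 hA ψ (P := P) y u hu ?_ hcd ?_ v rfl g x
    · intro w hw hwP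
      exact hy1 w hw fun h => hwP (hPeq w h)
    · intro m hm
      rw [hψA] at hm
      refine hone p hp u y hu (fun s hs hsp => ?_) hyn m hm
      refine hX4 s hs u y hu ?_
      have hsP : (Ideal.span {s}).IsPrime := (Ideal.span_singleton_prime (hS3 s hs).1.ne_zero).2 (hS3 s hs).1
      let w : HeightOneSpectrum (𝓞 F) := ⟨Ideal.span {s}, hsP, by
        rw [Ne, Ideal.span_singleton_eq_bot]
        exact (hS3 s hs).1.ne_zero⟩
      have hsw : s ∈ w.asIdeal := Ideal.mem_span_singleton_self s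
      refine dvd_of_mem (hS3 s hs).1 hsw (hy1 w ((hcv w).2 ⟨s, hs, hsw⟩) fun hpw => hsp ?_)
      have h1 : s ∣ p := Ideal.mem_span_singleton.1 hpw
      exact hne s hs p hp ((hS3 s hs).1.irreducible.associated_of_dvd (hS3 p hp).1.irreducible h1)
  -- the prime above three
  have huniq : ∀ v w : HeightOneSpectrum (𝓞 K), 3 ∈ v.asIdeal → 3 ∈ w.asIdeal → v = w := by
    have hθv : ∀ v : HeightOneSpectrum (𝓞 K), (3 : 𝓞 K) ∈ v.asIdeal →
        algebraMap (𝓞 F) (𝓞 K) θ ∈ v.asIdeal := by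
      intro v hv
      refine v.isPrime.mem_of_pow_mem 2 ?_
      rw [← map_pow, hθ, map_neg, map_ofNat]
      exact v.asIdeal.neg_mem hv
    have hunder : ∀ v : HeightOneSpectrum (𝓞 K), (3 : 𝓞 K) ∈ v.asIdeal →
        (v.under (𝓞 F)).asIdeal = Ideal.span {θ} := fun v hv => by
      have h1 : θ ∈ (v.under (𝓞 F)).asIdeal := hθv v hv
      exact span_of_prime (theta_prime hθ) h1
    intro v w hv hw
    refine one_above (q := Nat.card (𝓞 F ⧸ Ideal.span {θ})) (g := A uθ) ?_ ?_ ?_ ?_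
    · apply HeightOneSpectrum.ext
      rw [hunder v hv, hunder w hw]
    · have : Finite (𝓞 F ⧸ Ideal.span {θ}) := (card_unit_quot (theta_prime hθ)).1
      have : Nonempty (𝓞 F ⧸ Ideal.span {θ}) := ⟨0⟩
      exact Nat.card_pos.ne'
    · exact hA.frob θ (theta_prime hθ) uθ huθ v (hθv v hv)
    · have h1 : Nat.card (Subgroup.zpowers (A uθ)) = Nat.card Gal(K/F) := by
        rw [Nat.card_zpowers, hcard, ← orderOf_injective ψ hinj, hψA, hoθ]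
      have h2 := Subgroup.eq_top_of_card_eq _ h1
      intro t
      rw [h2]
      exact Subgroup.mem_top t
  -- the cardinality
  have hScard : S.card = Q.card + 1 := by
    rw [hSdef, Finset.card_insert_of_notMem, Finset.card_image_of_injective]
    · intro a b hab
      have h1 := neg_injective hab
      exact_mod_cast h1
    · intro h
      obtain ⟨q, hq, h1⟩ := Finset.mem_image.1 h
      refine (hQ q hq).2.2.2 ⟨0, ?_⟩
      rw [zero_pow three_ne_zero, zero_sub, ← h1, neg_neg]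
  refine ⟨K, inferInstance, inferInstance, inferInstance, inferInstance, hcyc, hfin, S, hmem, hScard, ?_,
    htot, huniq, ?_⟩
  · intro w hw
    refine hA.unr w fun h => ?_
    rw [hcdef, map_prod] at h
    have := w.isPrime
    obtain ⟨p, hp, hpw⟩ := Ideal.IsPrime.prod_mem_iff.1 h
    exact hw p hp hpw
  · obtain ⟨ζ, hζ⟩ := IsCyclotomicExtension.exists_isPrimitiveRoot ℚ F
      (Set.mem_singleton 3) (by norm_num)
    have hun3 : Pool.Agent.N883.T.Un3 F K := Pool.Agent.H62.un3_of hA hc3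
    have T := Pool.Agent.H62.ms_of_art hζ hn0 hfin hS3 hun3 htot huniq
    subst hcdef
    refine hLoc F K ζ n S T (Pool.Agent.H62.unrS_of hA) π hπS ?_ ?_
    · intro t ht htπ
      rcases (hmem t).1 ht with rfl | ⟨q, hq, rfl⟩
      · exact absurd rfl htπ
      · rintro ⟨y, hy⟩
        exact (hQ q hq).2.2.2 ⟨y, neg_dvd.1 hy⟩
    · intro t ht s hs htπ hsπ _
      rcases (hmem t).1 ht with rfl | ⟨q, hq, rfl⟩
      · exact absurd rfl htπ
      · rcases (hmem s).1 hs with rfl | ⟨q', hq', rfl⟩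
        · exact absurd rfl hsπ
        · obtain ⟨y, hy⟩ := cube_inert (F := F) (hQ q hq).1 (h9n.trans (hQ q hq).2.2.1) (-(q' : ℤ))
          refine ⟨y, neg_dvd.2 ?_⟩
          push_cast at hy
          exact hy

end

/-- **The goal.** -/
theorem goal_of (hA : S_A) (hD : S_D) (hLoc : S_Loc) : S_Goal := by
  classical
  intro F _ _ _ θ hθ n k B hn0
  obtain ⟨π, Q, hπ, h3θ, h9, hNπ, hBπ, hθπ, hQk, hQ⟩ := hA F θ hθ n k B hn0
  obtain ⟨K, _, _, _, _, h1, h2, S, hS, h3, h4, h5, h6, h7⟩ := exists_K hD hLoc hθ hn0 hπ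
    ((dvd_mul_right _ _).trans h3θ) hNπ hθπ
    (fun q hq => ⟨(hQ q hq).1, (hQ q hq).2.1, (hQ q hq).2.2.1, (hQ q hq).2.2.2.2⟩)
  refine ⟨K, inferInstance, inferInstance, inferInstance, inferInstance, S, h1, h2, by rw [h3, hQk],
    ?_, h4, h5, h6, h7⟩
  intro p hp
  rcases (hS p).1 hp with rfl | ⟨q, hq, rfl⟩
  · exact ⟨hπ, h3θ, hNπ, hBπ, fun _ => h9⟩
  · obtain ⟨hq1, hq2, hq3, hq4, hq5⟩ := hQ q hq
    refine ⟨hq2.neg, ?_, ?_, ?_, ?_⟩
    · have h8 : 9 ∣ q + 1 := by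
        refine dvd_trans ?_ hq3
        have : (3 : ℕ) ^ 2 ∣ 3 ^ (n + 1) := pow_dvd_pow 3 (by omega)
        exact this
      obtain ⟨m, hm⟩ := h8
      refine ⟨θ * m, ?_⟩
      have := congrArg (Nat.cast : ℕ → 𝓞 F) hm
      push_cast at this
      linear_combination -this - 3 * m * hθ
    · rw [Ideal.span_singleton_neg, span_natCast_norm]
      have h1 : q ^ 2 - 1 = (q + 1) * (q - 1) := by
        rw [← Nat.sq_sub_sq, one_pow]
      rw [h1]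
      exact hq3.mul_right _
    · rw [Ideal.span_singleton_neg, span_natCast_norm]
      nlinarith [hq1.one_lt]
    · intro hk0
      rw [hk0, Finset.card_eq_zero] at hQk
      rw [hQk] at hq
      exact absurd hq (Finset.notMem_empty q)

end Pool.Agent.H62.EX
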