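import Pool.Agent.H62.EX.Goal
import Pool.Agent.H62.Tow

/-!
# The prime is not one modulo nine
-/

set_option autoImplicit false
set_option linter.unusedSectionVars false

namespace Pool.Agent.H62.EX

open NumberField IsDedekindDomain WithZero
open Pool.Agent.H62 (Ms UnrS)

section
variable {F K : Type} [Field F] [NumberField F] [IsCyclotomicExtension {3} ℚ F] [Field K]
  [NumberField K] [Algebra F K] [IsGalois F K]

/-- If there is only one prime above three in `K`, the only ramified prime is not one modulo nine. -/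
theorem not_nine [IsCyclic Gal(K/F)] {ζ : F} {n : ℕ} {π : 𝓞 F} (T : Ms F K ζ n {π})
    (hunr : UnrS K ({π} : Finset (𝓞 F))) : ¬ 9 ∣ π - 1 := by
  intro h9
  obtain ⟨b, e, σ, hb, he, hσ, hb0, hσb⟩ := T.exists_kum hunr
  rw [Finset.prod_singleton] at hb
  obtain ⟨v, hv⟩ := Pool.Agent.N883.T.exists_three K
  set ω := algebraMap F K ζ with hω
  have hI : ω ^ 2 + ω + 1 = 0 := T.quad
  have hω3 : ω ^ 3 = 1 := by linear_combination (ω - 1) * hI
  have hσω : σ ω = ω := σ.commutes ζ
  have hlam : v.valuation K (2 * ω + 1) = exp (-1 : ℤ) := T.lam v hv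
  have hω1 : v.valuation K ω = 1 := by
    have h1 : v.valuation K ω ^ 3 = 1 := by rw [← map_pow, hω3, map_one]
    rcases lt_trichotomy (v.valuation K ω) 1 with h | h | h
    · exact absurd h1 (pow_lt_one' h three_ne_zero).ne
    · exact h
    · exact absurd h1 (one_lt_pow' h three_ne_zero).ne'
  have h3 : v.valuation K 3 = exp (-2 : ℤ) := by
    have e1 : (3 : K) = -(2 * ω + 1) ^ 2 := by linear_combination (4 : K) * hI
    rw [e1, Valuation.map_neg, map_pow, hlam, ← exp_nsmul]
    rfl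
  -- `ω - 1`
  have hd : v.valuation K (ω - 1) = exp (-1 : ℤ) := by
    have h1 : v.valuation K (ω - 1) ^ 2 = exp (2 * (-1 : ℤ)) := by
      rw [← map_pow]
      have e1 : (ω - 1) ^ 2 = -(3 * ω) := by linear_combination hI
      rw [e1, Valuation.map_neg, map_mul, h3, hω1, mul_one]
      rfl
    exact Pool.Agent.Y696.sq_exp h1
  -- `b ^ 3 - 1`
  have hb1 : v.valuation K (b ^ 3 - 1) ≤ exp (-4 : ℤ) := by
    obtain ⟨t, ht⟩ := h9.trans ((sub_dvd_pow_sub_pow π 1 (e π)))
    let g : 𝓞 F →+* K := (algebraMap F K).comp (algebraMap (𝓞 F) F)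
    have hb' : b ^ 3 = g (π ^ e π) := hb
    have e1 : b ^ 3 - 1 = 3 * 3 * g t := by
      have h2 := congrArg g ht
      rw [one_pow, map_sub, map_one, map_mul, map_ofNat] at h2
      rw [hb', h2]
      ring
    have h4 : v.valuation K (g t) ≤ 1 := v.valuation_le_one (K := K) (algebraMap (𝓞 F) (𝓞 K) t)
    rw [e1, map_mul, map_mul, h3, ← exp_add]
    exact mul_le_of_le_one_right' h4
  have hfac : b ^ 3 - 1 = (b - ω ^ 0) * (b - ω ^ 1) * (b - ω ^ 2) := by
    linear_combination (b ^ 2 - b * ω - 1 + ω - 0) * hI - 0 * hω3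
  obtain ⟨i, hi⟩ : ∃ i : ℕ, v.valuation K (b - ω ^ i) ≤ exp (-2 : ℤ) := by
    by_contra hcon
    push Not at hcon
    have hval : ∀ i : ℕ, ∃ a : ℤ, v.valuation K (b - ω ^ i) = exp a ∧ -1 ≤ a := by
      intro i
      have h1 := hcon i
      have h0 : v.valuation K (b - ω ^ i) ≠ 0 := by
        intro h
        rw [h] at h1
        exact absurd h1 (not_lt.2 zero_le)
      refine ⟨log (v.valuation K (b - ω ^ i)), (exp_log h0).symm, ?_⟩
      rw [← exp_log h0, exp_lt_exp] at h1
      omega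
    obtain ⟨a0, h0, k0⟩ := hval 0
    obtain ⟨a1, h1, k1⟩ := hval 1
    obtain ⟨a2, h2, k2⟩ := hval 2
    rw [hfac, map_mul, map_mul, h0, h1, h2, ← exp_add, ← exp_add, exp_le_exp] at hb1
    omega
  have hinv : v.valuation K (σ (b - ω ^ i)) = v.valuation K (b - ω ^ i) :=
    Pool.Agent.H62.val_inv_uniq (σ : K ≃+* K) (k := 3) (by exact_mod_cast hv)
      (fun w hw => T.uniq w v (by exact_mod_cast hw) hv) _
  rw [map_sub, map_pow, hσω, hσb] at hinv
  have h5 : v.valuation K (ω * (b - ω ^ i)) ≤ exp (-2 : ℤ) := by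
    rw [map_mul, hω1, one_mul]
    exact hi
  have h6 : v.valuation K ((ω * b - ω ^ i) - ω * (b - ω ^ i)) ≤ exp (-2 : ℤ) :=
    (Valuation.map_sub _ _ _).trans (max_le (hinv.le.trans hi) h5)
  have e2 : (ω * b - ω ^ i) - ω * (b - ω ^ i) = ω ^ i * (ω - 1) := by ring
  rw [e2, map_mul, map_pow, hω1, one_pow, one_mul, hd, exp_le_exp] at h6
  omega

end

end Pool.Agent.H62.EX
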