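import Pool.Agent.H62.EX.Chr

/-!
# The product of the characters modulo the primes of a set
-/

set_option autoImplicit false

namespace Pool.Agent.H62.EX

open NumberField

section
variable {F : Type} [Field F] [NumberField F]

theorem card_unit_quot {p : 𝓞 F} (hp : Prime p) :
    Finite (𝓞 F ⧸ Ideal.span {p}) ∧ IsCyclic (𝓞 F ⧸ Ideal.span {p})ˣ ∧
      Nat.card (𝓞 F ⧸ Ideal.span {p})ˣ = Ideal.absNorm (Ideal.span {p}) - 1 := by
  have h1 : (Ideal.span {p}).IsPrime := (Ideal.span_singleton_prime hp.ne_zero).2 hp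
  have h0 : Ideal.span {p} ≠ ⊥ := by
    rw [Ne, Ideal.span_singleton_eq_bot]
    exact hp.ne_zero
  have h2 : (Ideal.span {p}).IsMaximal := h1.isMaximal h0
  have hfin : Finite (𝓞 F ⧸ Ideal.span {p}) := Ideal.finiteQuotientOfFreeOfNeBot _ h0
  let _ := Ideal.Quotient.field (Ideal.span {p})
  refine ⟨hfin, inferInstance, ?_⟩
  rw [Nat.card_units, Ideal.absNorm_apply]
  rfl

/-- the character modulo `p`, inflated to the modulus `c` -/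
theorem exists_X {c p : 𝓞 F} (hp : Prime p) (hpc : p ∣ c) {n : ℕ}
    (hN : 3 ^ (n + 1) ∣ Ideal.absNorm (Ideal.span {p}) - 1) :
    ∃ X : (𝓞 F ⧸ Ideal.span {c})ˣ →* ℂˣ, (∀ u, X u ^ 3 ^ n = 1) ∧
      (∀ (u : (𝓞 F ⧸ Ideal.span {c})ˣ) (y : 𝓞 F), (u : 𝓞 F ⧸ Ideal.span {c}) = Ideal.Quotient.mk _ y →
        (¬ ∃ z : 𝓞 F, p ∣ z ^ 3 - y) → ∀ m : ℕ, X u ^ m = 1 → 3 ^ n ∣ m) ∧
      (∀ (u : (𝓞 F ⧸ Ideal.span {c})ˣ) (y : 𝓞 F), (u : 𝓞 F ⧸ Ideal.span {c}) = Ideal.Quotient.mk _ y →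
        p ∣ y ^ 6 - 1 → X u = 1) ∧
      (∀ (u : (𝓞 F ⧸ Ideal.span {c})ˣ) (y : 𝓞 F), (u : 𝓞 F ⧸ Ideal.span {c}) = Ideal.Quotient.mk _ y →
        p ∣ y - 1 → X u = 1) := by
  obtain ⟨hfin, hcyc, hcard⟩ := card_unit_quot hp
  rw [← hcard] at hN
  obtain ⟨χ, h1, h2, h3⟩ := exists_chr hN
  have hle : Ideal.span {c} ≤ Ideal.span {p} := Ideal.span_singleton_le_span_singleton.2 hpc
  let f : (𝓞 F ⧸ Ideal.span {c}) →+* 𝓞 F ⧸ Ideal.span {p} := Ideal.Quotient.factor hle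
  let g : (𝓞 F ⧸ Ideal.span {c})ˣ →* (𝓞 F ⧸ Ideal.span {p})ˣ :=
    Units.map (f : (𝓞 F ⧸ Ideal.span {c}) →* 𝓞 F ⧸ Ideal.span {p})
  have hf : ∀ (u : (𝓞 F ⧸ Ideal.span {c})ˣ) (y : 𝓞 F),
      (u : 𝓞 F ⧸ Ideal.span {c}) = Ideal.Quotient.mk _ y →
        ((g u : (𝓞 F ⧸ Ideal.span {p})ˣ) : 𝓞 F ⧸ Ideal.span {p}) =
          Ideal.Quotient.mk _ y := by
    intro u y h
    have h4 : ((g u : (𝓞 F ⧸ Ideal.span {p})ˣ) : 𝓞 F ⧸ Ideal.span {p}) =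
      f (u : 𝓞 F ⧸ Ideal.span {c}) := rfl
    rw [h4, h]
    rfl
  refine ⟨χ.comp g, fun u => h1 _, ?_, ?_, ?_⟩
  · intro u y hu hy m hm
    refine h2 _ ?_ m hm
    rintro ⟨z, hz⟩
    obtain ⟨t, ht⟩ := Ideal.Quotient.mk_surjective (z : 𝓞 F ⧸ Ideal.span {p})
    refine hy ⟨t, ?_⟩
    rw [← Ideal.mem_span_singleton, ← Ideal.Quotient.eq, map_pow, ht, ← hf u y hu, ← hz,
      Units.val_pow_eq_pow_val]
  · intro u y hu hy
    refine h3 _ ?_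
    apply Units.ext
    rw [Units.val_pow_eq_pow_val, hf u y hu, Units.val_one, ← map_pow, ← map_one (Ideal.Quotient.mk _),
      Ideal.Quotient.eq, Ideal.mem_span_singleton]
    exact hy
  · intro u y hu hy
    have h4 : g u = 1 := by
      apply Units.ext
      rw [hf u y hu, Units.val_one, ← map_one (Ideal.Quotient.mk _), Ideal.Quotient.eq,
        Ideal.mem_span_singleton]
      exact hy
    rw [MonoidHom.comp_apply, h4, map_one]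

end

end Pool.Agent.H62.EX
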